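import Pool.Agent.Lib.MP_3c6092_nt.SR.Spec

/-!
# CLU: a relation has a bounded number of points
-/

set_option autoImplicit false

namespace Pool.Agent.Lib.MP3c6092.SR

open Finset Pool.Agent.Lib.MP3c6092

namespace CLUM

/-- a chain of well spaced elements of a finite set, if short intervals contain at most `g` elements -/
lemma chain (F : Finset ℕ) (L : ℝ) (g : ℕ)
    (hG : ∀ G : Finset ℕ, G ⊆ F → (∀ b ∈ G, ∀ b' ∈ G, (b : ℝ) - b' ≤ L) → G.card ≤ g)
    (N p : ℕ) (hF : N * (p * g) < F.card) :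
    ∃ b : ℕ → ℕ, (∀ k < N, b k ∈ F) ∧ ∀ k, k + 1 < N → (b k : ℝ) + p * L ≤ b (k + 1) := by
  classical
  obtain ⟨f, hf⟩ : ∃ f : ℕ → ℕ, ∀ i, ∀ h : i < F.card, f i = F.orderEmbOfFin rfl ⟨i, h⟩ := by
    refine ⟨fun i => if h : i < F.card then F.orderEmbOfFin rfl ⟨i, h⟩ else 0, ?_⟩
    intro i h
    simp [h]
  have h1 : ∀ i, i < F.card → f i ∈ F := by
    intro i h
    rw [hf i h]
    exact F.orderEmbOfFin_mem rfl _
  have h2 : ∀ i j, i < j → j < F.card → f i < f j := by
    intro i j hij hj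
    rw [hf i (hij.trans hj), hf j hj]
    exact (F.orderEmbOfFin rfl).strictMono (by simpa using hij)
  have h2' : ∀ i j, i ≤ j → j < F.card → f i ≤ f j := by
    intro i j hij hj
    rcases Nat.lt_or_ge i j with h | h
    · exact (h2 i j h hj).le
    · have : i = j := le_antisymm hij h
      rw [this]
  have h3 : ∀ i, i + g < F.card → (f i : ℝ) + L ≤ f (i + g) := by
    intro i hi
    by_contra hcon
    push Not at hcon
    have hsub : (Finset.Icc i (i + g)).image f ⊆ F := by
      intro b hb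
      rw [Finset.mem_image] at hb
      obtain ⟨j, hj, rfl⟩ := hb
      rw [Finset.mem_Icc] at hj
      exact h1 j (lt_of_le_of_lt hj.2 hi)
    have hcard : ((Finset.Icc i (i + g)).image f).card = g + 1 := by
      rw [Finset.card_image_of_injOn]
      · rw [Nat.card_Icc]; omega
      · intro a ha b hb hab
        rw [Finset.mem_coe, Finset.mem_Icc] at ha hb
        rcases lt_trichotomy a b with h | h | h
        · have := h2 a b h (lt_of_le_of_lt hb.2 hi)
          exact absurd hab (ne_of_lt this)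
        · exact h
        · have := h2 b a h (lt_of_le_of_lt ha.2 hi)
          exact absurd hab.symm (ne_of_lt this)
    have hle := hG _ hsub (by
      intro b hb b' hb'
      rw [Finset.mem_image] at hb hb'
      obtain ⟨j, hj, rfl⟩ := hb
      obtain ⟨j', hj', rfl⟩ := hb'
      rw [Finset.mem_Icc] at hj hj'
      have e1 : (f j : ℝ) ≤ f (i + g) := by exact_mod_cast h2' j (i + g) hj.2 hi
      have e2 : (f i : ℝ) ≤ f j' := by exact_mod_cast h2' i j' hj'.1 (lt_of_le_of_lt hj'.2 hi)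
      linarith)
    omega
  have h4 : ∀ q i, i + q * g < F.card → (f i : ℝ) + q * L ≤ f (i + q * g) := by
    intro q
    induction q with
    | zero => intro i _; simp
    | succ q ih =>
      intro i hi
      have e1 : i + (q + 1) * g = (i + q * g) + g := by ring
      rw [e1] at hi ⊢
      have e2 := ih i (by omega)
      have e3 := h3 (i + q * g) hi
      push_cast
      linarith
  refine ⟨fun k => f (k * (p * g)), ?_, ?_⟩
  · intro k hk
    apply h1
    exact lt_of_le_of_lt (Nat.mul_le_mul_right _ hk.le) hF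
  · intro k hk
    have e1 : (k + 1) * (p * g) = k * (p * g) + p * g := by ring
    have e2 : k * (p * g) + p * g < F.card := by
      rw [← e1]
      exact lt_of_le_of_lt (Nat.mul_le_mul_right _ hk.le) hF
    have e3 := h4 p (k * (p * g)) e2
    show (f (k * (p * g)) : ℝ) + p * L ≤ f ((k + 1) * (p * g))
    rw [e1]
    exact e3

end CLUM

/-- CLU -/
theorem specCLU (hZES : SpecZES) (hTRI : SpecTRI) : SpecCLU := by
  classical
  intro S m n hm hmn hnm hS hinj hσ
  obtain ⟨C, hC1, hC⟩ := hZES S m n hm hmn hnm hS hinj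
  obtain ⟨τ, hτ⟩ : ∃ τ : ℝ, τ = (2 - (n : ℝ) / m) / 3 := ⟨_, rfl⟩
  have hm0 : (0 : ℝ) < m := by exact_mod_cast (by omega : 0 < m)
  have hθ1 : (1 : ℝ) < (n : ℝ) / m := by
    rw [lt_div_iff₀ hm0, one_mul]
    exact_mod_cast hmn
  have hθ2 : (n : ℝ) / m < 2 := by
    rw [div_lt_iff₀ hm0]
    exact_mod_cast hnm
  have hτ0 : 0 < τ := by rw [hτ]; linarith
  have hτ1 : τ < 1 := by rw [hτ]; linarith
  rw [← hτ] at hσ
  obtain ⟨X₁, hX₁⟩ : ∃ X₁ : ℝ, X₁ = max 64 ((2 * C) ^ (1 / (1 - τ))) := ⟨_, rfl⟩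
  obtain ⟨g, hg⟩ : ∃ g : ℕ, g = 16 * m + 4 := ⟨_, rfl⟩
  obtain ⟨p, hp⟩ : ∃ p : ℕ, p = ⌈2 * C⌉₊ := ⟨_, rfl⟩
  refine ⟨max (2 ^ (S.card - 1) * (p * g)) (⌊2 * X₁⌋₊ + 1), ?_⟩
  intro X c F hX hc hF
  rcases lt_or_ge X X₁ with hlt | hge
  · refine le_trans ?_ (le_max_right _ _)
    have hsub : F ⊆ Finset.range (⌊2 * X₁⌋₊ + 1) := by
      intro b hb
      rw [Finset.mem_range, Nat.lt_succ_iff]
      apply Nat.le_floor
      have := (hF b hb).2.1
      linarith
    have := Finset.card_le_card hsub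
    rwa [Finset.card_range] at this
  · refine le_trans ?_ (le_max_left _ _)
    by_contra hcon
    push Not at hcon
    have h64 : 64 ≤ X := le_trans (by rw [hX₁]; exact le_max_left _ _) hge
    have hX0 : 0 < X := by linarith
    have hXτ : 0 < X ^ τ := Real.rpow_pos_of_pos hX0 _
    have h1X : 1 ≤ X ^ τ := Real.one_le_rpow hX hτ0.le
    have hbig : 2 * C ≤ X ^ (1 - τ) := by
      have h1 : (2 * C) ^ (1 / (1 - τ)) ≤ X :=
        le_trans (by rw [hX₁]; exact le_max_right _ _) hge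
      have h2 : ((2 * C) ^ (1 / (1 - τ))) ^ (1 - τ) ≤ X ^ (1 - τ) :=
        Real.rpow_le_rpow (Real.rpow_nonneg (by linarith) _) h1 (by linarith)
      rw [← Real.rpow_mul (by linarith)] at h2
      have h3 : 1 / (1 - τ) * (1 - τ) = 1 := by
        have : (1 - τ) ≠ 0 := by linarith
        field_simp
      rw [h3, Real.rpow_one] at h2
      exact h2
    have hΔX : 2 * C * X ^ τ ≤ X := by
      have h1 : X ^ (1 - τ) * X ^ τ = X := by
        rw [← Real.rpow_add hX0]
        simp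
      calc 2 * C * X ^ τ ≤ X ^ (1 - τ) * X ^ τ := mul_le_mul_of_nonneg_right hbig hXτ.le
        _ = X := h1
    have hΔ1 : 1 ≤ 2 * C * X ^ τ := by nlinarith
    obtain ⟨b, hb1, hb2⟩ := CLUM.chain F (X ^ τ) g (by
      intro G hGF hG
      rw [hg]
      apply hTRI m n X G hm hmn hnm h64
      · intro b hb
        obtain ⟨h1, h2, a, h3, _⟩ := hF b (hGF hb)
        exact ⟨h1, h2, a, h3⟩
      · rw [← hτ]
        exact hG) (2 ^ (S.card - 1)) p hcon
    have ha : ∀ b : ℕ, ∃ a : ℕ, b ∈ F → Lc a b m n ∧ Rel S c b a := by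
      intro b
      by_cases h : b ∈ F
      · obtain ⟨_, _, a, h3⟩ := hF b h
        exact ⟨a, fun _ => h3⟩
      · exact ⟨0, fun h' => absurd h' h⟩
    choose a ha using ha
    have hfin := hC X (2 * C * X ^ τ) c b (fun k => a (b k)) hX hΔ1 hΔX hc (by
      intro k hk
      have hk1 := hb1 k hk
      exact ⟨(hF _ hk1).1, (hF _ hk1).2.1, (ha _ hk1).1, (ha _ hk1).2⟩) (by
      intro k hk
      have h1 := hb2 k hk
      have h2 : 2 * C * X ^ τ ≤ p * X ^ τ := by
        apply mul_le_mul_of_nonneg_right _ hXτ.le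
        rw [hp]
        exact Nat.le_ceil _
      linarith)
    have h5 : X ^ (1 - (n : ℝ) / m * (m - 1) / (S.card - 1)) ≤ X ^ τ :=
      Real.rpow_le_rpow_of_exponent_le hX hσ
    have h6 : C * X ^ (1 - (n : ℝ) / m * (m - 1) / (S.card - 1)) ≤ C * X ^ τ :=
      mul_le_mul_of_nonneg_left h5 (by linarith)
    nlinarith

end Pool.Agent.Lib.MP3c6092.SR
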