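import Pool.Agent.Lib.MP_3c6092_nt.SR.Spec

/-!
# MP_3c6092_nt, module COP of the square root bound: elementary facts on one solution
-/

set_option autoImplicit false

namespace Pool.Agent.Lib.MP3c6092.SR

open Finset Pool.Agent.Lib.MP3c6092

namespace COPM

theorem sub_lt_pow {a b m : ℕ} (hm : 3 ≤ m) (hb : 1 ≤ b) (hba : b < a) :
    (a : ℝ) - b < (a : ℝ) ^ (m - 1) := by
  have ha1 : (1 : ℝ) ≤ a := by exact_mod_cast (by omega : 1 ≤ a)
  have hb1 : (1 : ℝ) ≤ b := by exact_mod_cast hb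
  have h1 : (a : ℝ) ^ 1 ≤ (a : ℝ) ^ (m - 1) := pow_le_pow_right₀ ha1 (by omega)
  rw [pow_one] at h1
  linarith

theorem two_le {a b m n : ℕ} (hm : 3 ≤ m) (h : Lc a b m n) : 2 ≤ b := by
  obtain ⟨hb1, hba, -, hle⟩ := h
  by_contra hb
  have hb' : b = 1 := by omega
  subst hb'
  have ha2 : (2 : ℝ) ≤ a := by exact_mod_cast (by omega : 2 ≤ a)
  have h1 : (a : ℝ) ^ 2 ≤ (a : ℝ) ^ m := pow_le_pow_right₀ (by linarith) (by omega)
  have h2 := le_trans (le_abs_self _) hle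
  simp only [Nat.cast_one, one_pow] at h2
  nlinarith

theorem lt_exp {a b m n : ℕ} (hm : 3 ≤ m) (h : Lc a b m n) : m < n := by
  obtain ⟨hb1, hba, -, hle⟩ := h
  by_contra hmn
  have hmn : n ≤ m := by omega
  have hb1r : (1 : ℝ) ≤ b := by exact_mod_cast hb1
  have hba' : (b : ℝ) < a := by exact_mod_cast hba
  have ha2 : (2 : ℝ) ≤ a := by exact_mod_cast (by omega : 2 ≤ a)
  have h1 : (b : ℝ) ^ n ≤ (b : ℝ) ^ m := pow_le_pow_right₀ hb1r hmn
  obtain ⟨t, rfl⟩ := Nat.exists_eq_add_of_le (show 1 ≤ m by omega)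
  have h2 : (b : ℝ) ^ t ≤ (a : ℝ) ^ t := pow_le_pow_left₀ (by linarith) hba'.le _
  have h3 : (a : ℝ) ^ 1 ≤ (a : ℝ) ^ t := pow_le_pow_right₀ (by linarith) (by omega)
  rw [pow_one] at h3
  have h4 := le_trans (le_abs_self _) hle
  have h5 : (a : ℝ) ^ (1 + t) = a * (a : ℝ) ^ t := by ring
  have h6 : (b : ℝ) ^ (1 + t) = b * (b : ℝ) ^ t := by ring
  have h7 : (b : ℝ) * (b : ℝ) ^ t ≤ b * (a : ℝ) ^ t := by gcongr
  have h8 : ((a : ℝ) - b) * 2 ≤ ((a : ℝ) - b) * (a : ℝ) ^ t :=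
    mul_le_mul_of_nonneg_left (by linarith) (by linarith)
  rw [h5] at h4
  rw [h6] at h1
  linarith

theorem pow_le_two {a b m n : ℕ} (hm : 3 ≤ m) (h : Lc a b m n) : (b : ℝ) ^ n ≤ 2 * (a : ℝ) ^ m := by
  obtain ⟨hb1, hba, -, hle⟩ := h
  have hb1r : (1 : ℝ) ≤ b := by exact_mod_cast hb1
  have ha1 : (1 : ℝ) ≤ a := by exact_mod_cast (by omega : 1 ≤ a)
  have h1 : (a : ℝ) ^ 1 ≤ (a : ℝ) ^ m := pow_le_pow_right₀ ha1 (by omega)
  rw [pow_one] at h1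
  have h2 := (abs_le.mp hle).1
  linarith

theorem coprime {a b m n : ℕ} (hm : 3 ≤ m) (h : Lc a b m n) : Nat.Coprime m n := by
  obtain ⟨hb1, hba, hne, hle⟩ := h
  have hb1r : (1 : ℝ) ≤ b := by exact_mod_cast hb1
  have ha1 : (1 : ℝ) ≤ a := by exact_mod_cast (by omega : 1 ≤ a)
  obtain ⟨g, hg⟩ : ∃ g : ℕ, g = Nat.gcd m n := ⟨_, rfl⟩
  have hg1 : 1 ≤ g := by rw [hg]; exact Nat.gcd_pos_of_pos_left n (by omega)
  show Nat.gcd m n = 1
  rw [← hg]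
  by_contra hgne
  have hg2 : 2 ≤ g := by omega
  obtain ⟨m', hm'⟩ : ∃ m' : ℕ, m' = m / g := ⟨_, rfl⟩
  obtain ⟨n', hn'⟩ : ∃ n' : ℕ, n' = n / g := ⟨_, rfl⟩
  have hmg : m = g * m' := by
    rw [hm', hg]; exact (Nat.mul_div_cancel' (Nat.gcd_dvd_left m n)).symm
  have hng : n = g * n' := by
    rw [hn', hg]; exact (Nat.mul_div_cancel' (Nat.gcd_dvd_right m n)).symm
  have hm'1 : 1 ≤ m' := by
    rcases Nat.eq_zero_or_pos m' with h | h
    · rw [h] at hmg; omega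
    · exact h
  have hne' : a ^ m' ≠ b ^ n' := by
    intro h
    apply hne
    rw [hmg, hng, mul_comm g m', mul_comm g n', pow_mul, pow_mul, h]
  have hx0 : (0 : ℝ) ≤ (a : ℝ) ^ m' := by positivity
  have hy0 : (0 : ℝ) ≤ (b : ℝ) ^ n' := by positivity
  have h1 := pow_diff hx0 hy0 hg1
  rw [← pow_mul, ← pow_mul, ← pow_mul, mul_comm m' g, mul_comm n' g, ← hmg, ← hng] at h1
  have h2 := h1.trans hle
  have h5 : (1 : ℝ) ≤ |(a : ℝ) ^ m' - (b : ℝ) ^ n'| := by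
    have h6 : ((a : ℤ) ^ m' - (b : ℤ) ^ n') ≠ 0 := by
      intro h
      apply hne'
      have : (a : ℤ) ^ m' = (b : ℤ) ^ n' := by linarith
      exact_mod_cast this
    have h7 := Int.one_le_abs h6
    have h8 : ((1 : ℤ) : ℝ) ≤ ((|(a : ℤ) ^ m' - (b : ℤ) ^ n'| : ℤ) : ℝ) := by exact_mod_cast h7
    push_cast at h8
    exact h8
  have h9 : (a : ℝ) ^ 1 ≤ (a : ℝ) ^ (m' * (g - 1)) :=
    pow_le_pow_right₀ ha1 (Nat.mul_pos (by omega) (by omega))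
  rw [pow_one] at h9
  nlinarith

end COPM

theorem specCOP : SpecCOP := by
  refine ⟨fun a b m n hm hn h => ⟨COPM.coprime hm h, COPM.lt_exp hm h, COPM.two_le hm h,
    COPM.pow_le_two hm h⟩, ?_⟩
  intro a a' b m n hm h h'
  have key : ∀ x y : ℕ, Lc x b m n → Lc y b m n → x < y → False := by
    intro x y hx hy hxy
    exact unique_a (b := b) (n := n) (by omega) (by have := hx.1; have := hx.2.1; omega) hxy
      (hx.2.2.2.trans_lt (COPM.sub_lt_pow hm hx.1 hx.2.1))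
      (hy.2.2.2.trans_lt (COPM.sub_lt_pow hm hy.1 hy.2.1))
  rcases Nat.lt_trichotomy a a' with hlt | heq | hlt
  · exact (key _ _ h h' hlt).elim
  · exact heq
  · exact (key _ _ h' h hlt).elim

end Pool.Agent.Lib.MP3c6092.SR
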