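import Pool.Agent.Lib.MP_3c6092_nt.SR.Spec

/-!
# Module ERL: the error of one monomial
-/

set_option autoImplicit false

namespace Pool.Agent.Lib.MP3c6092.SR

open Finset Pool.Agent.Lib.MP3c6092

namespace ERLM

theorem lo (a B : ℝ) (ha : 0 ≤ a) (hB : 0 ≤ B) (k : ℕ) :
    |a - B| * B ^ k ≤ |a ^ (k + 1) - B ^ (k + 1)| := by
  rcases le_total B a with h | h
  · have h1 : B ^ k ≤ a ^ k := pow_le_pow_left₀ hB h k
    have h2 : B ^ (k + 1) ≤ a ^ (k + 1) := pow_le_pow_left₀ hB h (k + 1)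
    rw [abs_of_nonneg (by linarith), abs_of_nonneg (by linarith), pow_succ, pow_succ]
    nlinarith [mul_le_mul_of_nonneg_left h1 ha]
  · have h1 : a ^ k ≤ B ^ k := pow_le_pow_left₀ ha h k
    have h2 : a ^ (k + 1) ≤ B ^ (k + 1) := pow_le_pow_left₀ ha h (k + 1)
    rw [abs_of_nonpos (by linarith), abs_of_nonpos (by linarith), pow_succ, pow_succ]
    nlinarith [mul_le_mul_of_nonneg_left h1 ha]

theorem up (a B : ℝ) (ha : 0 ≤ a) (hB : 0 ≤ B) (hab : a ≤ 2 * B) (j : ℕ) :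
    |a ^ j - B ^ j| * B ≤ j * |a - B| * (2 * B) ^ j := by
  induction j with
  | zero => simp
  | succ j ih =>
    have h1 : a ^ (j + 1) - B ^ (j + 1) = a * (a ^ j - B ^ j) + (a - B) * B ^ j := by ring
    have h2 : |a ^ (j + 1) - B ^ (j + 1)| ≤ a * |a ^ j - B ^ j| + |a - B| * B ^ j := by
      rw [h1]
      refine (abs_add_le _ _).trans ?_
      rw [abs_mul, abs_mul, abs_of_nonneg ha, abs_of_nonneg (pow_nonneg hB j)]
    have h3 : a * (|a ^ j - B ^ j| * B) ≤ 2 * B * (j * |a - B| * (2 * B) ^ j) :=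
      mul_le_mul hab ih (by positivity) (by positivity)
    have h4 : B ^ (j + 1) ≤ (2 * B) ^ (j + 1) := pow_le_pow_left₀ hB (by linarith) _
    have h5 := mul_le_mul_of_nonneg_left h4 (abs_nonneg (a - B))
    have h6 := mul_le_mul_of_nonneg_right h2 hB
    push_cast
    calc |a ^ (j + 1) - B ^ (j + 1)| * B ≤ (a * |a ^ j - B ^ j| + |a - B| * B ^ j) * B := h6
      _ = a * (|a ^ j - B ^ j| * B) + |a - B| * B ^ (j + 1) := by ring
      _ ≤ 2 * B * (j * |a - B| * (2 * B) ^ j) + |a - B| * (2 * B) ^ (j + 1) := add_le_add h3 h5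
      _ = ((j : ℝ) + 1) * |a - B| * (2 * B) ^ (j + 1) := by ring

theorem pw (X b e : ℝ) (hX : 1 ≤ X) (h1 : X ≤ b) (h2 : b ≤ 2 * X) : b ^ e ≤ 2 ^ |e| * X ^ e := by
  have hX0 : 0 < X := by linarith
  have hb0 : 0 < b := by linarith
  rcases le_total 0 e with he | he
  · rw [abs_of_nonneg he, ← Real.mul_rpow (by norm_num) hX0.le]
    exact Real.rpow_le_rpow hb0.le h2 he
  · have h3 : b ^ e ≤ X ^ e := Real.rpow_le_rpow_of_nonpos hX0 h1 he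
    have h4 : (1 : ℝ) ≤ 2 ^ |e| := Real.one_le_rpow (by norm_num) (abs_nonneg e)
    have h5 : 0 ≤ X ^ e := Real.rpow_nonneg hX0.le e
    nlinarith

end ERLM

open ERLM in
theorem specERL : SpecERL := by
  intro m n i j hm hmn hn
  obtain ⟨k, rfl⟩ : ∃ k, m = k + 1 := ⟨m - 1, by omega⟩
  obtain ⟨θ, hθ⟩ : ∃ θ : ℝ, θ = (n : ℝ) / ((k + 1 : ℕ) : ℝ) := ⟨_, rfl⟩
  rw [← hθ]
  have hk0 : (0 : ℝ) < ((k + 1 : ℕ) : ℝ) := by positivity
  have hθ0 : 0 ≤ θ := by rw [hθ]; positivity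
  obtain ⟨e, he⟩ : ∃ e : ℝ, e = w θ (i, j) - θ * (((k + 1 : ℕ) : ℝ) - 1) := ⟨_, rfl⟩
  rw [← he]
  refine ⟨(j * 2 ^ (j + 1)) * 2 ^ |e|, by positivity, ?_⟩
  intro X a b hX hXb hbX hL
  obtain ⟨hb1, hba, -, hL⟩ := hL
  have hb0 : (1 : ℝ) ≤ b := by exact_mod_cast hb1
  have hba' : (b : ℝ) + 1 ≤ a := by exact_mod_cast hba
  have hbp : (0 : ℝ) < b := by linarith
  have hap : (0 : ℝ) < a := by linarith
  obtain ⟨B, hB⟩ : ∃ B : ℝ, B = (b : ℝ) ^ θ := ⟨_, rfl⟩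
  have hB1 : 1 ≤ B := hB ▸ Real.one_le_rpow hb0 hθ0
  have hB0 : 0 < B := by linarith
  have hBm : B ^ (k + 1) = (b : ℝ) ^ n := by
    rw [hB, ← Real.rpow_natCast, ← Real.rpow_mul hbp.le, hθ, div_mul_cancel₀ _ hk0.ne',
      Real.rpow_natCast]
  have h1 := lo a B hap.le hB0.le k
  have h2 := lo B a hB0.le hap.le k
  rw [hBm] at h1
  rw [hBm, abs_sub_comm, abs_sub_comm ((b : ℝ) ^ n)] at h2
  -- `|a - B| < 1`
  have h3 : (a : ℝ) ≤ (a : ℝ) ^ k := le_self_pow₀ (by linarith) (by omega)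
  have h4 : |(a : ℝ) - B| < 1 := by
    by_contra h
    push Not at h
    have h5 : (a : ℝ) ≤ |(a : ℝ) - B| * (a : ℝ) ^ k := by nlinarith
    linarith
  have h5 : (a : ℝ) ≤ 2 * B := by
    have := (abs_lt.1 h4).2
    linarith
  have h6 : |(a : ℝ) - B| * B ^ k ≤ 2 * B := by linarith
  have h7 := up a B hap.le hB0.le h5 j
  have h8 : |(a : ℝ) ^ j - B ^ j| * B ^ k ≤ j * 2 ^ (j + 1) * B ^ j := by
    have h9 := mul_le_mul_of_nonneg_right h7 (pow_nonneg hB0.le k)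
    have h10 : (j : ℝ) * |(a : ℝ) - B| * (2 * B) ^ j * B ^ k ≤ j * (2 * B) ^ j * (2 * B) := by
      have h11 := mul_le_mul_of_nonneg_left h6 (show (0 : ℝ) ≤ j * (2 * B) ^ j by positivity)
      calc (j : ℝ) * |(a : ℝ) - B| * (2 * B) ^ j * B ^ k =
            j * (2 * B) ^ j * (|(a : ℝ) - B| * B ^ k) := by ring
        _ ≤ _ := h11
    have h12 : |(a : ℝ) ^ j - B ^ j| * B ^ k * B ≤ (j * 2 ^ (j + 1) * B ^ j) * B := by
      calc |(a : ℝ) ^ j - B ^ j| * B ^ k * B = |(a : ℝ) ^ j - B ^ j| * B * B ^ k := by ring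
        _ ≤ j * (2 * B) ^ j * (2 * B) := h9.trans h10
        _ = (j * 2 ^ (j + 1) * B ^ j) * B := by rw [mul_pow]; ring
    exact le_of_mul_le_mul_right h12 hB0
  have hw : (b : ℝ) ^ w θ (i, j) = (b : ℝ) ^ i * B ^ j := by
    show (b : ℝ) ^ ((i : ℝ) + θ * (j : ℝ)) = _
    rw [Real.rpow_add hbp, Real.rpow_natCast, Real.rpow_mul_natCast hbp.le, hB]
  have hbe : (b : ℝ) ^ e * B ^ k = (b : ℝ) ^ i * B ^ j := by
    have h9 : B ^ k = (b : ℝ) ^ (θ * k) := by rw [Real.rpow_mul_natCast hbp.le, hB]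
    rw [h9, ← Real.rpow_add hbp, ← hw]
    congr 1
    rw [he]
    push_cast
    ring
  have hBk : 0 < B ^ k := pow_pos hB0 k
  have h13 : |(b : ℝ) ^ i * (a : ℝ) ^ j - (b : ℝ) ^ w θ (i, j)| ≤ j * 2 ^ (j + 1) * (b : ℝ) ^ e := by
    rw [hw, ← mul_sub, abs_mul, abs_of_nonneg (pow_nonneg hbp.le i)]
    have h14 := mul_le_mul_of_nonneg_left h8 (pow_nonneg hbp.le i)
    have h15 : (b : ℝ) ^ i * |(a : ℝ) ^ j - B ^ j| * B ^ k ≤
        (j * 2 ^ (j + 1) * (b : ℝ) ^ e) * B ^ k := by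
      calc (b : ℝ) ^ i * |(a : ℝ) ^ j - B ^ j| * B ^ k =
            (b : ℝ) ^ i * (|(a : ℝ) ^ j - B ^ j| * B ^ k) := by ring
        _ ≤ (b : ℝ) ^ i * (j * 2 ^ (j + 1) * B ^ j) := h14
        _ = j * 2 ^ (j + 1) * ((b : ℝ) ^ i * B ^ j) := by ring
        _ = j * 2 ^ (j + 1) * ((b : ℝ) ^ e * B ^ k) := by rw [hbe]
        _ = (j * 2 ^ (j + 1) * (b : ℝ) ^ e) * B ^ k := by ring
    exact le_of_mul_le_mul_right h15 hBk
  have h16 := pw X b e hX hXb hbX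
  have h17 := mul_le_mul_of_nonneg_left h16 (show (0 : ℝ) ≤ j * 2 ^ (j + 1) by positivity)
  calc _ ≤ _ := h13
    _ ≤ j * 2 ^ (j + 1) * (2 ^ |e| * X ^ e) := h17
    _ = (j * 2 ^ (j + 1)) * 2 ^ |e| * X ^ e := by ring

end Pool.Agent.Lib.MP3c6092.SR
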