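import Pool.Agent.Lib.MP_3c6092_nt.SR.Spec

/-!
# MP_3c6092_nt, square root bound, module FIN

All exponents together.
-/

set_option autoImplicit false

namespace Pool.Agent.Lib.MP3c6092.SR

open Finset Pool.Agent.Lib.MP3c6092

namespace FINM

theorem good (h3 : SpecPA3) (h4 : SpecPA4) (h8 : SpecPA8) {m n : ℕ} (hm : 3 ≤ m)
    (hc : Nat.Coprime m n) (hmn : m < n) (hn : n < 2 * m) : Good m n := by
  by_cases hm3 : m = 3
  · subst hm3
    exact h3 n hmn (by omega)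
  · by_cases hm7 : m ≤ 7
    · exact h4 m n (by omega) hm7 hc hmn hn
    · exact h8 m n (by omega) hc hmn hn

theorem pair (h3 : SpecPA3) (h4 : SpecPA4) (h8 : SpecPA8) (hO : SpecONE) (ε : ℝ) (hε : 0 < ε)
    (m n : ℕ) : ∃ D : ℝ, 0 ≤ D ∧ ∀ N : ℕ, 1 ≤ N → ∃ S : Finset (ℕ × ℕ),
      (S.card : ℝ) ≤ D * (N : ℝ) ^ (1 / 2 + ε) ∧
      (3 ≤ m → 3 ≤ n → Nat.Coprime m n → m < n → ∀ a b : ℕ, a ≤ N → Lc a b m n → (a, b) ∈ S) := by
  by_cases hc : 3 ≤ m ∧ 3 ≤ n ∧ Nat.Coprime m n ∧ m < n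
  · obtain ⟨hm, hn, hco, hmn⟩ := hc
    obtain ⟨D, hD, h⟩ := hO m n hm hn hmn (fun hlt => good h3 h4 h8 hm hco hmn hlt) ε hε
    refine ⟨D, hD, fun N hN => ?_⟩
    obtain ⟨S, hS, hmem⟩ := h N hN
    exact ⟨S, hS, fun _ _ _ _ => hmem⟩
  · refine ⟨0, le_refl _, fun N _ => ⟨∅, ?_, fun h1 h2 h5 h6 => (hc ⟨h1, h2, h5, h6⟩).elim⟩⟩
    simp

end FINM

open FINM in
theorem specFIN (h3 : SpecPA3) (h4 : SpecPA4) (h8 : SpecPA8) (hC : SpecCOP) (hO : SpecONE) :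
    SpecFIN := by
  classical
  intro ε hε
  obtain ⟨M, C, h0⟩ := LE.leech LE.allQUAD 1 (1 / 2) one_pos (by norm_num)
  have hP := pair h3 h4 h8 hO ε hε
  choose D hD hS using hP
  refine ⟨|C| + ∑ p ∈ range M ×ˢ range M, D p.1 p.2, fun N hN => ?_⟩
  obtain ⟨S₀, hS₀, hmem₀⟩ := h0 N hN
  have hS' : ∀ m n : ℕ, ∃ S : Finset (ℕ × ℕ),
      (S.card : ℝ) ≤ D m n * (N : ℝ) ^ (1 / 2 + ε) ∧
      (3 ≤ m → 3 ≤ n → Nat.Coprime m n → m < n → ∀ a b : ℕ, a ≤ N → Lc a b m n → (a, b) ∈ S) :=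
    fun m n => hS m n N hN
  choose S hcard hmem using hS'
  have hN1 : (1 : ℝ) ≤ N := by exact_mod_cast hN
  refine ⟨S₀ ∪ (range M ×ˢ range M).biUnion
    (fun p => (S p.1 p.2).image (fun q => (q.1, q.2, p.1, p.2))), ?_, ?_⟩
  · have h1 : ((range M ×ˢ range M).biUnion
        (fun p => (S p.1 p.2).image (fun q => (q.1, q.2, p.1, p.2)))).card ≤
        ∑ p ∈ range M ×ˢ range M, (S p.1 p.2).card :=
      Finset.card_biUnion_le.trans (Finset.sum_le_sum (fun p _ => Finset.card_image_le))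
    have h2 := Finset.card_union_le S₀ ((range M ×ˢ range M).biUnion
      (fun p => (S p.1 p.2).image (fun q => (q.1, q.2, p.1, p.2))))
    have h3' : ((S₀ ∪ (range M ×ˢ range M).biUnion
        (fun p => (S p.1 p.2).image (fun q => (q.1, q.2, p.1, p.2)))).card : ℝ) ≤
        (S₀.card : ℝ) + ∑ p ∈ range M ×ˢ range M, ((S p.1 p.2).card : ℝ) := by
      exact_mod_cast h2.trans (Nat.add_le_add_left h1 _)
    have h4' : (S₀.card : ℝ) ≤ |C| * (N : ℝ) ^ (1 / 2 + ε) := by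
      refine hS₀.trans ?_
      have h5 : (N : ℝ) ^ ((1 : ℝ) / 2) ≤ (N : ℝ) ^ (1 / 2 + ε) :=
        Real.rpow_le_rpow_of_exponent_le hN1 (by linarith)
      have h6 : (0 : ℝ) ≤ (N : ℝ) ^ ((1 : ℝ) / 2) := by positivity
      calc C * (N : ℝ) ^ ((1 : ℝ) / 2) ≤ |C| * (N : ℝ) ^ ((1 : ℝ) / 2) :=
            mul_le_mul_of_nonneg_right (le_abs_self C) h6
        _ ≤ |C| * (N : ℝ) ^ (1 / 2 + ε) := mul_le_mul_of_nonneg_left h5 (abs_nonneg C)
    have h7 : ∑ p ∈ range M ×ˢ range M, ((S p.1 p.2).card : ℝ) ≤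
        ∑ p ∈ range M ×ˢ range M, D p.1 p.2 * (N : ℝ) ^ (1 / 2 + ε) :=
      Finset.sum_le_sum (fun p _ => hcard p.1 p.2)
    rw [← Finset.sum_mul] at h7
    rw [add_mul]
    linarith
  · intro a b m n hb hba haN hm hn hne hle
    rw [Finset.mem_union]
    by_cases hM : M ≤ m ∨ M ≤ n
    · left
      exact hmem₀ a b m n hb hba haN (by omega) (by omega) hM hne (Or.inl hle)
    · right
      have hL : Lc a b m n := ⟨hb, hba, hne, by exact_mod_cast hle⟩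
      obtain ⟨hco, hmn, -, -⟩ := hC.1 a b m n hm hn hL
      rw [Finset.mem_biUnion]
      refine ⟨(m, n), ?_, ?_⟩
      · rw [Finset.mem_product]
        simp only [Finset.mem_range]
        omega
      · rw [Finset.mem_image]
        exact ⟨(a, b), hmem m n hm hn hco hmn a b haN hL, rfl⟩

end Pool.Agent.Lib.MP3c6092.SR
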