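import Pool.Agent.Lib.MP_3c6092_nt.SR.Spec

/-!
MP_3c6092_nt, the square root bound, HYP: the relations for m = 3.
-/

set_option autoImplicit false

namespace Pool.Agent.Lib.MP3c6092.SR

open Finset Pool.Agent.Lib.MP3c6092

namespace HYPM

/-- `1, b, a, b ^ 2` -/
def S4 : Finset (ℕ × ℕ) := {(0, 0), (1, 0), (0, 1), (2, 0)}
/-- `1, b, a` -/
def S3 : Finset (ℕ × ℕ) := {(0, 0), (1, 0), (0, 1)}

theorem sum5 (f : ℕ × ℕ → ℤ) : ∑ v ∈ S5, f v = f (0, 0) + f (1, 0) + f (0, 1) + f (2, 0) + f (1, 1) := by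
  rw [S5, sum_insert (by decide), sum_insert (by decide), sum_insert (by decide),
    sum_insert (by decide), sum_singleton]
  ring

theorem sum4 (f : ℕ × ℕ → ℤ) : ∑ v ∈ S4, f v = f (0, 0) + f (1, 0) + f (0, 1) + f (2, 0) := by
  rw [S4, sum_insert (by decide), sum_insert (by decide), sum_insert (by decide), sum_singleton]
  ring

theorem sum3 (f : ℕ × ℕ → ℤ) : ∑ v ∈ S3, f v = f (0, 0) + f (1, 0) + f (0, 1) := by
  rw [S3, sum_insert (by decide), sum_insert (by decide), sum_singleton]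
  ring

theorem rel5 (c : ℕ × ℕ → ℤ) (b a : ℕ) : Rel S5 c b a ↔
    c (0, 0) + c (1, 0) * b + c (0, 1) * a + c (2, 0) * (b : ℤ) ^ 2 + c (1, 1) * (b * a) = 0 := by
  rw [Rel, sum5]
  simp only [pow_zero, pow_one, mul_one, one_mul]

theorem rel4 (c : ℕ × ℕ → ℤ) (b a : ℕ) : Rel S4 c b a ↔
    c (0, 0) + c (1, 0) * b + c (0, 1) * a + c (2, 0) * (b : ℤ) ^ 2 = 0 := by
  rw [Rel, sum4]
  simp only [pow_zero, pow_one, mul_one, one_mul]

theorem rel3 (c : ℕ × ℕ → ℤ) (b a : ℕ) : Rel S3 c b a ↔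
    c (0, 0) + c (1, 0) * b + c (0, 1) * a = 0 := by
  rw [Rel, sum3]
  simp only [pow_zero, pow_one, mul_one, one_mul]

theorem theta (n : ℕ) (h3 : 3 < n) (h6 : n < 6) :
    (n : ℝ) / ((3 : ℕ) : ℝ) = 4 / 3 ∨ (n : ℝ) / ((3 : ℕ) : ℝ) = 5 / 3 := by
  have : n = 4 ∨ n = 5 := by omega
  rcases this with rfl | rfl
  · left; norm_num
  · right; norm_num

theorem inj4 (n : ℕ) (h3 : 3 < n) (h6 : n < 6) : Set.InjOn (w ((n : ℝ) / ((3 : ℕ) : ℝ))) S4 := by
  intro v hv v' hv' he
  rw [mem_coe, S4] at hv hv'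
  simp only [mem_insert, mem_singleton] at hv hv'
  rcases theta n h3 h6 with ht | ht <;> rw [ht] at he <;>
  rcases hv with rfl | rfl | rfl | rfl <;> rcases hv' with rfl | rfl | rfl | rfl <;>
  first
  | rfl
  | (exfalso; norm_num [w] at he)

theorem inj3 (n : ℕ) (h3 : 3 < n) (h6 : n < 6) : Set.InjOn (w ((n : ℝ) / ((3 : ℕ) : ℝ))) S3 := by
  refine (inj4 n h3 h6).mono ?_
  intro v hv
  rw [mem_coe, S3] at hv
  rw [mem_coe, S4]
  simp only [mem_insert, mem_singleton] at hv ⊢
  tauto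

/-- the number of integer divisors -/
theorem card_dvd (K : ℤ) (hK : K ≠ 0) (G : Finset ℤ) (hG : ∀ u ∈ G, u ∣ K) :
    G.card ≤ 2 * K.natAbs.divisors.card := by
  have h1 : ∀ u ∈ G, u.natAbs ∈ K.natAbs.divisors := fun u hu =>
    Nat.mem_divisors.mpr ⟨Int.natAbs_dvd_natAbs.mpr (hG u hu), Int.natAbs_ne_zero.mpr hK⟩
  refine card_le_mul_card_image_of_maps_to h1 2 ?_
  intro d _
  calc (G.filter fun u => u.natAbs = d).card ≤ ({(d : ℤ), -(d : ℤ)} : Finset ℤ).card := by
        apply card_le_card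
        intro u hu
        have h := (mem_filter.mp hu).2
        rw [mem_insert, mem_singleton]
        omega
    _ ≤ 2 := card_le_two

end HYPM

open HYPM in
theorem specHYP (hCLU : SpecCLU) : SpecHYP := by
  intro n h ε h3 h6 hh hε
  have hθ := theta n h3 h6
  obtain ⟨W4, hW4⟩ := hCLU S4 3 n le_rfl (by omega) (by omega) (by decide) (inj4 n h3 h6) (by
    have hc : (S4.card : ℝ) = 4 := by
      have : S4.card = 4 := by decide
      rw [this]; norm_num
    rw [hc]
    rcases hθ with ht | ht <;> rw [ht] <;> norm_num)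
  obtain ⟨W3, hW3⟩ := hCLU S3 3 n le_rfl (by omega) (by omega) (by decide) (inj3 n h3 h6) (by
    have hc : (S3.card : ℝ) = 3 := by
      have : S3.card = 3 := by decide
      rw [this]; norm_num
    rw [hc]
    rcases hθ with ht | ht <;> rw [ht] <;> norm_num)
  set κ : ℝ := ε / (3 * h + 1) with hκ
  have hpos : 0 < 3 * h + 1 := by positivity
  have hκ0 : 0 < κ := div_pos hε hpos
  obtain ⟨C1, hC1, hdiv⟩ := Pool.Agent.Lib.MP_391708_nt.Div.card_divisors_le_rpow κ hκ0
  refine ⟨W4 + (W3 + 1) + 2 * C1 * 3 ^ κ, by positivity, ?_⟩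
  intro X c F hX hc hcX hF
  have hX0 : 0 < X := lt_of_lt_of_le one_pos hX
  have hXε : 1 ≤ X ^ ε := Real.one_le_rpow hX hε.le
  have hXε0 : 0 < X ^ ε := lt_of_lt_of_le one_pos hXε
  have h3κ : (0 : ℝ) < 3 ^ κ := by positivity
  by_cases h4 : c (1, 1) = 0
  · have hcard : F.card ≤ W4 := by
      refine hW4 X c F hX ?_ ?_
      · obtain ⟨v, hv, hne⟩ := hc
        refine ⟨v, ?_, hne⟩
        rw [S5] at hv
        rw [S4]
        simp only [mem_insert, mem_singleton] at hv ⊢
        rcases hv with h | h | h | h | h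
        · tauto
        · tauto
        · tauto
        · tauto
        · rw [h] at hne
          exact absurd h4 hne
      · intro b hb
        obtain ⟨h1, h2, a, ha, hr⟩ := hF b hb
        refine ⟨h1, h2, a, ha, ?_⟩
        rw [rel5, h4] at hr
        rw [rel4]
        linear_combination hr
    calc (F.card : ℝ) ≤ W4 := by exact_mod_cast hcard
      _ ≤ (W4 + (W3 + 1) + 2 * C1 * 3 ^ κ) * 1 := by
          have : 0 ≤ ((W3 : ℝ) + 1) + 2 * C1 * 3 ^ κ := by positivity
          linarith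
      _ ≤ (W4 + (W3 + 1) + 2 * C1 * 3 ^ κ) * X ^ ε :=
          mul_le_mul_of_nonneg_left hXε (by positivity)
  · set K : ℤ := c (0, 0) * c (1, 1) ^ 2 - c (1, 0) * c (0, 1) * c (1, 1) +
      c (2, 0) * c (0, 1) ^ 2 with hK
    have hkey : ∀ b a : ℕ, Rel S5 c b a → (c (1, 1) * b + c (0, 1)) *
        (c (1, 1) ^ 2 * a + c (1, 0) * c (1, 1) + c (2, 0) * (c (1, 1) * b + c (0, 1)) -
          2 * c (0, 1) * c (2, 0)) + K = 0 := by
      intro b a hr
      rw [rel5] at hr
      rw [hK]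
      linear_combination c (1, 1) ^ 2 * hr
    have hinj : ∀ b b' : ℕ, c (1, 1) * (b : ℤ) + c (0, 1) = c (1, 1) * (b' : ℤ) + c (0, 1) →
        b = b' := by
      intro b b' he
      have h1 : c (1, 1) * (b : ℤ) = c (1, 1) * (b' : ℤ) := by linarith
      exact_mod_cast mul_left_cancel₀ h4 h1
    by_cases hK0 : K = 0
    · have hF1 : (F.filter fun b : ℕ => c (1, 1) * (b : ℤ) + c (0, 1) = 0).card ≤ 1 := by
        rw [card_le_one]
        intro b hb b' hb'
        have h1 := (mem_filter.mp hb).2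
        have h2 := (mem_filter.mp hb').2
        exact hinj b b' (h1.trans h2.symm)
      have hF2 : (F.filter fun b : ℕ => ¬ c (1, 1) * (b : ℤ) + c (0, 1) = 0).card ≤ W3 := by
        refine hW3 X (fun v => if v = (0, 0) then c (1, 0) * c (1, 1) - c (0, 1) * c (2, 0) else
          if v = (1, 0) then c (2, 0) * c (1, 1) else c (1, 1) ^ 2) _ hX
          ⟨(0, 1), by decide, ?_⟩ ?_
        · show (if ((0, 1) : ℕ × ℕ) = (0, 0) then _ else _) ≠ (0 : ℤ)
          rw [if_neg (by decide), if_neg (by decide)]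
          exact pow_ne_zero 2 h4
        · intro b hb
          obtain ⟨hb1, hb2⟩ := mem_filter.mp hb
          obtain ⟨h1, h2, a, ha, hr⟩ := hF b hb1
          refine ⟨h1, h2, a, ha, ?_⟩
          have h5 := hkey b a hr
          rw [hK0, add_zero] at h5
          have h6 := (mul_eq_zero.mp h5).resolve_left hb2
          rw [rel3]
          simp only [if_true, if_neg (show ((1, 0) : ℕ × ℕ) ≠ (0, 0) by decide),
            if_neg (show ((0, 1) : ℕ × ℕ) ≠ (0, 0) by decide),
            if_neg (show ((0, 1) : ℕ × ℕ) ≠ (1, 0) by decide)]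
          linear_combination h6
      have hcard : F.card ≤ W3 + 1 := by
        rw [← card_filter_add_card_filter_not (s := F)
          (fun b : ℕ => c (1, 1) * (b : ℤ) + c (0, 1) = 0)]
        omega
      calc (F.card : ℝ) ≤ W3 + 1 := by exact_mod_cast hcard
        _ ≤ (W4 + (W3 + 1) + 2 * C1 * 3 ^ κ) * 1 := by
            have : 0 ≤ (W4 : ℝ) + 2 * C1 * 3 ^ κ := by positivity
            linarith
        _ ≤ (W4 + (W3 + 1) + 2 * C1 * 3 ^ κ) * X ^ ε :=
            mul_le_mul_of_nonneg_left hXε (by positivity)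
    · have hcard : F.card ≤ 2 * K.natAbs.divisors.card := by
        have h1 : (F.image fun b : ℕ => c (1, 1) * (b : ℤ) + c (0, 1)).card = F.card :=
          card_image_of_injOn fun b _ b' _ he => hinj b b' he
        rw [← h1]
        refine card_dvd K hK0 _ ?_
        intro u hu
        obtain ⟨b, hb, rfl⟩ := mem_image.mp hu
        obtain ⟨_, _, a, _, hr⟩ := hF b hb
        refine ⟨-(c (1, 1) ^ 2 * a + c (1, 0) * c (1, 1) +
          c (2, 0) * (c (1, 1) * b + c (0, 1)) - 2 * c (0, 1) * c (2, 0)), ?_⟩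
        linear_combination hkey b a hr
      have hXh : 1 ≤ X ^ h := Real.one_le_rpow hX hh
      have hb : ∀ v ∈ S5, |(c v : ℝ)| ≤ X ^ h := hcX
      have b00 := hb (0, 0) (by decide)
      have b10 := hb (1, 0) (by decide)
      have b01 := hb (0, 1) (by decide)
      have b20 := hb (2, 0) (by decide)
      have b11 := hb (1, 1) (by decide)
      have hKb : ((K.natAbs : ℕ) : ℝ) ≤ 3 * X ^ (3 * h) := by
        have e1 : ((K.natAbs : ℕ) : ℝ) = |(K : ℝ)| := by
          rw [Nat.cast_natAbs, Int.cast_abs]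
        have e2 : X ^ (3 * h) = X ^ h * X ^ h * X ^ h := by
          rw [← Real.rpow_add hX0, ← Real.rpow_add hX0]
          congr 1
          ring
        have t3 : ∀ x y z : ℝ, |x| ≤ X ^ h → |y| ≤ X ^ h → |z| ≤ X ^ h →
            |x * y * z| ≤ X ^ h * X ^ h * X ^ h := by
          intro x y z hx hy hz
          rw [abs_mul, abs_mul]
          have := hXh
          gcongr
        rw [e1, e2, hK]
        push_cast
        have t1 := t3 (c (0, 0)) (c (1, 1)) (c (1, 1)) b00 b11 b11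
        have t2 := t3 (c (1, 0)) (c (0, 1)) (c (1, 1)) b10 b01 b11
        have t4 := t3 (c (2, 0)) (c (0, 1)) (c (0, 1)) b20 b01 b01
        rw [abs_le] at t1 t2 t4 ⊢
        constructor
        · nlinarith [t1.1, t2.2, t4.1]
        · nlinarith [t1.2, t2.1, t4.2]
      have hKpos : 0 < K.natAbs := Int.natAbs_pos.mpr hK0
      have h5 := hdiv K.natAbs hKpos
      have h6' : ((K.natAbs : ℕ) : ℝ) ^ κ ≤ 3 ^ κ * X ^ ε := by
        calc ((K.natAbs : ℕ) : ℝ) ^ κ ≤ (3 * X ^ (3 * h)) ^ κ :=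
              Real.rpow_le_rpow (by positivity) hKb hκ0.le
          _ = 3 ^ κ * X ^ (3 * h * κ) := by
              rw [Real.mul_rpow (by norm_num) (by positivity), ← Real.rpow_mul hX0.le]
          _ ≤ 3 ^ κ * X ^ ε := by
              refine mul_le_mul_of_nonneg_left (Real.rpow_le_rpow_of_exponent_le hX ?_) h3κ.le
              rw [hκ, mul_div_assoc', div_le_iff₀ hpos]
              nlinarith
      calc (F.card : ℝ) ≤ 2 * (K.natAbs.divisors.card : ℝ) := by exact_mod_cast hcard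
        _ ≤ 2 * (C1 * ((K.natAbs : ℕ) : ℝ) ^ κ) := by linarith
        _ ≤ 2 * (C1 * (3 ^ κ * X ^ ε)) := by
            have := mul_le_mul_of_nonneg_left h6' hC1.le
            linarith
        _ = (2 * C1 * 3 ^ κ) * X ^ ε := by ring
        _ ≤ (W4 + (W3 + 1) + 2 * C1 * 3 ^ κ) * X ^ ε := by
            refine mul_le_mul_of_nonneg_right ?_ hXε0.le
            have : 0 ≤ (W4 : ℝ) + (W3 + 1) := by positivity
            linarith

end Pool.Agent.Lib.MP3c6092.SR
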