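import Pool.Agent.Lib.MP_3c6092_nt.SR.Spec

/-!
# MP_3c6092_nt, square root bound, module INT: from short intervals to `[X, 2 X]`
-/

set_option autoImplicit false

namespace Pool.Agent.Lib.MP3c6092.SR

open Finset Pool.Agent.Lib.MP3c6092

theorem specINT (hREL : SpecREL) : SpecINT := by
  intro S m n K ρ h ε hm hmn hn2 hρ hε hsum hhK hhm hw hk hR
  obtain ⟨X₀, hX₀, hrel⟩ := hREL S m n K ρ h hm hmn hn2 hρ hsum hhK hhm hw hk
  obtain ⟨C, hC, hcl⟩ := hR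
  refine ⟨2 * X₀ + 1 + 2 * C, by positivity, fun X F hX hF => ?_⟩
  have hX0 : (0 : ℝ) < X := by linarith
  have h1e : 1 ≤ X ^ (ρ + ε) := Real.one_le_rpow hX (by linarith)
  by_cases hc : X < X₀
  · have hsub : F ⊆ range (⌊2 * X⌋₊ + 1) := by
      intro b hb
      obtain ⟨-, hb2, -⟩ := hF b hb
      rw [mem_range, Nat.lt_succ_iff]
      exact Nat.le_floor hb2
    have h1 : (F.card : ℝ) ≤ ⌊2 * X⌋₊ + 1 := by
      have h2 := card_le_card hsub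
      rw [card_range] at h2
      exact_mod_cast h2
    have h3 : (⌊2 * X⌋₊ : ℝ) ≤ 2 * X := Nat.floor_le (by linarith)
    have h4 : (F.card : ℝ) ≤ 2 * X₀ + 1 + 2 * C := by linarith
    calc (F.card : ℝ) ≤ 2 * X₀ + 1 + 2 * C := h4
      _ = (2 * X₀ + 1 + 2 * C) * 1 := (mul_one _).symm
      _ ≤ (2 * X₀ + 1 + 2 * C) * X ^ (ρ + ε) := by
        refine mul_le_mul_of_nonneg_left h1e (by positivity)
  · have hc' : X₀ ≤ X := not_lt.1 hc
    have hY : (0 : ℝ) < X ^ (1 - ρ) := Real.rpow_pos_of_pos hX0 _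
    have hP : (0 : ℝ) < X ^ ρ := Real.rpow_pos_of_pos hX0 _
    have hP1 : 1 ≤ X ^ ρ := Real.one_le_rpow hX hρ.le
    have hPY : X ^ ρ * X ^ (1 - ρ) = X := by
      rw [← Real.rpow_add hX0]
      simp
    have hmap : ∀ b ∈ F, ⌊((b : ℝ) - X) / X ^ (1 - ρ)⌋₊ ∈ range (⌊X ^ ρ⌋₊ + 1) := by
      intro b hb
      obtain ⟨-, hb2, -⟩ := hF b hb
      rw [mem_range, Nat.lt_succ_iff]
      refine Nat.floor_le_floor ?_
      rw [div_le_iff₀ hY, hPY]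
      linarith
    have hfib : ∀ k ∈ range (⌊X ^ ρ⌋₊ + 1),
        (((F.filter fun b : ℕ => ⌊((b : ℝ) - X) / X ^ (1 - ρ)⌋₊ = k).card : ℕ) : ℝ) ≤
          C * X ^ ε := by
      intro k hk'
      rw [mem_range, Nat.lt_succ_iff] at hk'
      have hkP : (k : ℝ) ≤ X ^ ρ := le_trans (by exact_mod_cast hk') (Nat.floor_le hP.le)
      have hk0 : (0 : ℝ) ≤ (k : ℝ) * X ^ (1 - ρ) := by positivity
      have hkX : (k : ℝ) * X ^ (1 - ρ) ≤ X := by
        calc (k : ℝ) * X ^ (1 - ρ) ≤ X ^ ρ * X ^ (1 - ρ) := mul_le_mul_of_nonneg_right hkP hY.le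
          _ = X := hPY
      obtain ⟨c, hc1, hc2, hc3⟩ := hrel X (X + k * X ^ (1 - ρ)) hc' (by linarith) (by linarith)
      refine hcl X c _ hX hc1 hc2 ?_
      intro b hb
      rw [mem_filter] at hb
      obtain ⟨hbF, hbk⟩ := hb
      obtain ⟨hb1, hb2, a, ha⟩ := hF b hbF
      refine ⟨hb1, hb2, a, ha, hc3 a b hb1 hb2 ?_ ha⟩
      have hnn : (0 : ℝ) ≤ ((b : ℝ) - X) / X ^ (1 - ρ) := div_nonneg (by linarith) hY.le
      have h5 : (k : ℝ) ≤ ((b : ℝ) - X) / X ^ (1 - ρ) := by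
        rw [← hbk]; exact Nat.floor_le hnn
      have h6 : ((b : ℝ) - X) / X ^ (1 - ρ) < k + 1 := by
        rw [← hbk]; exact Nat.lt_floor_add_one _
      rw [le_div_iff₀ hY] at h5
      rw [div_lt_iff₀ hY] at h6
      rw [abs_le]
      constructor
      · linarith
      · nlinarith
    have hcard : F.card = ∑ k ∈ range (⌊X ^ ρ⌋₊ + 1),
        (F.filter fun b : ℕ => ⌊((b : ℝ) - X) / X ^ (1 - ρ)⌋₊ = k).card :=
      card_eq_sum_card_fiberwise hmap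
    have h7 : (F.card : ℝ) ≤ (⌊X ^ ρ⌋₊ + 1 : ℕ) * (C * X ^ ε) := by
      rw [hcard, Nat.cast_sum]
      refine (sum_le_sum hfib).trans (le_of_eq ?_)
      rw [sum_const, card_range, nsmul_eq_mul]
    have h8 : ((⌊X ^ ρ⌋₊ + 1 : ℕ) : ℝ) ≤ 2 * X ^ ρ := by
      have h9 : (⌊X ^ ρ⌋₊ : ℝ) ≤ X ^ ρ := Nat.floor_le hP.le
      push_cast
      linarith
    have hE : (0 : ℝ) ≤ C * X ^ ε := mul_nonneg hC (Real.rpow_nonneg hX0.le _)
    calc (F.card : ℝ) ≤ (⌊X ^ ρ⌋₊ + 1 : ℕ) * (C * X ^ ε) := h7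
      _ ≤ 2 * X ^ ρ * (C * X ^ ε) := mul_le_mul_of_nonneg_right h8 hE
      _ = 2 * C * X ^ (ρ + ε) := by
        rw [Real.rpow_add hX0]; ring
      _ ≤ (2 * X₀ + 1 + 2 * C) * X ^ (ρ + ε) := by
        refine mul_le_mul_of_nonneg_right ?_ (by positivity)
        linarith

end Pool.Agent.Lib.MP3c6092.SR
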