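import Pool.Agent.Lib.MP_3c6092_nt.SR.Spec

/-!
# Module ONE (MP_3c6092_nt, SR): one pair of exponents
-/

set_option autoImplicit false

namespace Pool.Agent.Lib.MP3c6092.SR

open Finset Pool.Agent.Lib.MP3c6092

namespace ONEM

/-- `n ≥ 2 m`: `b` is at most the square root of `2 N` -/
theorem small_b {m n N a b : ℕ} (hm : 3 ≤ m) (hn : 2 * m ≤ n) (ha : a ≤ N) (hb : 2 ≤ b)
    (h : (b : ℝ) ^ n ≤ 2 * (a : ℝ) ^ m) : b ≤ Nat.sqrt (2 * N) := by
  rw [Nat.le_sqrt]
  have h1 : b ^ n ≤ 2 * a ^ m := by exact_mod_cast h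
  have h2 : (b * b) ^ m ≤ (2 * N) ^ m := by
    calc (b * b) ^ m = b ^ (2 * m) := by rw [← pow_two, ← pow_mul]
      _ ≤ b ^ n := Nat.pow_le_pow_right (by omega) hn
      _ ≤ 2 * a ^ m := h1
      _ ≤ 2 ^ m * N ^ m := by
          apply Nat.mul_le_mul
          · calc 2 = 2 ^ 1 := by norm_num
              _ ≤ 2 ^ m := Nat.pow_le_pow_right (by norm_num) (by omega)
          · exact Nat.pow_le_pow_left ha m
      _ = (2 * N) ^ m := by rw [mul_pow]
  exact (Nat.pow_le_pow_iff_left (by omega)).1 h2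

/-- `n < 2 m`: the size of `b ^ (θ / 2 + κ)` -/
theorem size_b {m n N a b : ℕ} {κ : ℝ} (hm : 3 ≤ m) (hκ : 0 < κ) (hN : 1 ≤ N) (ha : a ≤ N) (hba : b < a)
    (hb : 2 ≤ b) (h : (b : ℝ) ^ n ≤ 2 * (a : ℝ) ^ m) :
    (b : ℝ) ^ ((n : ℝ) / m / 2 + κ) ≤ 2 * (N : ℝ) ^ (1 / 2 + κ) := by
  have hb0 : (0 : ℝ) < b := by exact_mod_cast (by omega : 0 < b)
  have hN0 : (0 : ℝ) < N := by exact_mod_cast (by omega : 0 < N)
  have hm0 : (0 : ℝ) < m := by exact_mod_cast (by omega : 0 < m)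
  have haN : (a : ℝ) ≤ N := by exact_mod_cast ha
  have hbN : (b : ℝ) ≤ N := by exact_mod_cast (by omega : b ≤ N)
  have h1 : (b : ℝ) ^ n ≤ (2 * (N : ℝ)) ^ m := by
    calc (b : ℝ) ^ n ≤ 2 * (a : ℝ) ^ m := h
      _ ≤ 2 ^ m * (N : ℝ) ^ m := by
          apply mul_le_mul
          · calc (2 : ℝ) = 2 ^ 1 := by norm_num
              _ ≤ 2 ^ m := pow_le_pow_right₀ (by norm_num) (by omega)
          · exact pow_le_pow_left₀ (by positivity) haN m
          · positivity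
          · positivity
      _ = (2 * (N : ℝ)) ^ m := by rw [mul_pow]
  have h2 : (b : ℝ) ^ ((n : ℝ) / m) ≤ 2 * N := by
    have h3 : ((b : ℝ) ^ ((n : ℝ) / m)) ^ m ≤ (2 * (N : ℝ)) ^ m := by
      rw [← Real.rpow_natCast ((b : ℝ) ^ ((n : ℝ) / m)) m, ← Real.rpow_mul hb0.le, div_mul_cancel₀ _ hm0.ne',
        Real.rpow_natCast]
      exact h1
    exact le_of_pow_le_pow_left₀ (by omega) (by positivity) h3
  have h4 : (b : ℝ) ^ ((n : ℝ) / m / 2) ≤ 2 * (N : ℝ) ^ (1 / 2 : ℝ) := by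
    have h5 : (b : ℝ) ^ ((n : ℝ) / m / 2) = ((b : ℝ) ^ ((n : ℝ) / m)) ^ (1 / 2 : ℝ) := by
      rw [← Real.rpow_mul hb0.le]; congr 1; ring
    rw [h5]
    calc ((b : ℝ) ^ ((n : ℝ) / m)) ^ (1 / 2 : ℝ) ≤ (2 * (N : ℝ)) ^ (1 / 2 : ℝ) :=
          Real.rpow_le_rpow (by positivity) h2 (by norm_num)
      _ = (2 : ℝ) ^ (1 / 2 : ℝ) * (N : ℝ) ^ (1 / 2 : ℝ) := Real.mul_rpow (by norm_num) hN0.le
      _ ≤ 2 * (N : ℝ) ^ (1 / 2 : ℝ) := by
          apply mul_le_mul_of_nonneg_right _ (by positivity)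
          calc (2 : ℝ) ^ (1 / 2 : ℝ) ≤ (2 : ℝ) ^ (1 : ℝ) :=
                Real.rpow_le_rpow_of_exponent_le (by norm_num) (by norm_num)
            _ = 2 := by norm_num
  have h6 : (b : ℝ) ^ κ ≤ (N : ℝ) ^ κ := Real.rpow_le_rpow hb0.le hbN hκ.le
  calc (b : ℝ) ^ ((n : ℝ) / m / 2 + κ) = (b : ℝ) ^ ((n : ℝ) / m / 2) * (b : ℝ) ^ κ := Real.rpow_add hb0 _ _
    _ ≤ 2 * (N : ℝ) ^ (1 / 2 : ℝ) * (N : ℝ) ^ κ := mul_le_mul h4 h6 (by positivity) (by positivity)
    _ = 2 * (N : ℝ) ^ (1 / 2 + κ) := by rw [Real.rpow_add hN0]; ring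

end ONEM

open ONEM in
theorem specONE (hCOP : SpecCOP) : SpecONE := by
  classical
  intro m n hm hn hmn hgood ε hε
  obtain ⟨hC1, hC2⟩ := hCOP
  -- the set of solutions and of the `b`
  set S : ℕ → Finset (ℕ × ℕ) := fun N =>
    ((Finset.range (N + 1)) ×ˢ (Finset.range (N + 1))).filter (fun p => Lc p.1 p.2 m n) with hS
  have hmem : ∀ N a b : ℕ, a ≤ N → Lc a b m n → (a, b) ∈ S N := by
    intro N a b ha hL
    rw [hS, Finset.mem_filter, Finset.mem_product, Finset.mem_range, Finset.mem_range]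
    have := hL.2.1
    exact ⟨⟨by simp only; omega, by simp only; omega⟩, hL⟩
  have hmem' : ∀ N (p : ℕ × ℕ), p ∈ S N → p.1 ≤ N ∧ Lc p.1 p.2 m n := by
    intro N p hp
    rw [hS, Finset.mem_filter, Finset.mem_product, Finset.mem_range, Finset.mem_range] at hp
    exact ⟨by omega, hp.2⟩
  have hcard : ∀ N, (S N).card = ((S N).image Prod.snd).card := by
    intro N
    rw [Finset.card_image_of_injOn]
    intro p hp q hq hpq
    have h1 := (hmem' N p hp).2
    have h2 := (hmem' N q hq).2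
    have hpq' : p.2 = q.2 := hpq
    rw [← hpq'] at h2
    exact Prod.ext (hC2 _ _ _ _ _ hm h1 h2) hpq'
  have hF : ∀ N b, b ∈ (S N).image Prod.snd → ∃ a, a ≤ N ∧ Lc a b m n := by
    intro N b hb
    rw [Finset.mem_image] at hb
    obtain ⟨p, hp, rfl⟩ := hb
    exact ⟨p.1, hmem' N p hp⟩
  clear_value S
  by_cases h2 : 2 * m ≤ n
  · refine ⟨2, by norm_num, fun N hN => ⟨S N, ?_, hmem N⟩⟩
    have hN1 : (1 : ℝ) ≤ N := by exact_mod_cast hN
    have h3 : (S N).image Prod.snd ⊆ Finset.Icc 1 (Nat.sqrt (2 * N)) := by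
      intro b hb
      obtain ⟨a, ha, hL⟩ := hF N b hb
      obtain ⟨_, _, hb2, hbn⟩ := hC1 a b m n hm hn hL
      rw [Finset.mem_Icc]
      exact ⟨by omega, small_b hm h2 ha hb2 hbn⟩
    have h4 : (S N).card ≤ Nat.sqrt (2 * N) := by
      rw [hcard N]
      calc _ ≤ _ := Finset.card_le_card h3
        _ = Nat.sqrt (2 * N) := by simp
    have h5 : ((Nat.sqrt (2 * N) : ℕ) : ℝ) ≤ 2 * (N : ℝ) ^ (1 / 2 : ℝ) := by
      calc ((Nat.sqrt (2 * N) : ℕ) : ℝ) ≤ Real.sqrt ((2 * N : ℕ) : ℝ) := Real.nat_sqrt_le_real_sqrt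
        _ ≤ Real.sqrt (4 * N) := by apply Real.sqrt_le_sqrt; push_cast; linarith
        _ = 2 * Real.sqrt N := by
            rw [Real.sqrt_mul (by norm_num)]
            congr 1
            rw [show (4 : ℝ) = 2 ^ 2 by norm_num]
            exact Real.sqrt_sq (by norm_num)
        _ = 2 * (N : ℝ) ^ (1 / 2 : ℝ) := by rw [Real.sqrt_eq_rpow]
    calc ((S N).card : ℝ) ≤ ((Nat.sqrt (2 * N) : ℕ) : ℝ) := by exact_mod_cast h4
      _ ≤ 2 * (N : ℝ) ^ (1 / 2 : ℝ) := h5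
      _ ≤ 2 * (N : ℝ) ^ (1 / 2 + ε) := by
          apply mul_le_mul_of_nonneg_left _ (by norm_num)
          exact Real.rpow_le_rpow_of_exponent_le hN1 (by linarith)
  · push Not at h2
    obtain ⟨C, hC0, hC⟩ := hgood h2 (ε / 2) (by positivity)
    obtain ⟨s, hs⟩ := exists_nat_gt (2 / ε)
    have hs1 : 1 ≤ s := by
      have : (0 : ℝ) < s := lt_trans (by positivity) hs
      exact_mod_cast this
    have hs0 : (0 : ℝ) < s := by exact_mod_cast hs1
    have hse : 1 / (s : ℝ) ≤ ε / 2 := by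
      rw [div_le_iff₀ hs0]
      have : 2 / ε * ε = 2 := by field_simp
      nlinarith [mul_lt_mul_of_pos_right hs hε]
    refine ⟨(2 * s + 1) * (C * 2), by positivity, fun N hN => ⟨S N, ?_, hmem N⟩⟩
    have hN1 : (1 : ℝ) ≤ N := by exact_mod_cast hN
    have hN0 : (0 : ℝ) < N := by linarith
    -- the dyadic parts
    have hpart : ∀ j, (((((S N).image Prod.snd)).filter (fun b => Nat.log 2 b = j)).card : ℝ) ≤
        C * (2 * (N : ℝ) ^ (1 / 2 + ε / 2)) := by
      intro j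
      by_cases hne : ((((S N).image Prod.snd)).filter (fun b => Nat.log 2 b = j)).Nonempty
      · obtain ⟨b₀, hb₀⟩ := hne
        rw [Finset.mem_filter] at hb₀
        obtain ⟨hb₀, hj₀⟩ := hb₀
        obtain ⟨a₀, ha₀, hL₀⟩ := hF N b₀ hb₀
        obtain ⟨_, _, hb2, hbn⟩ := hC1 a₀ b₀ m n hm hn hL₀
        have hX : ((2 : ℝ) ^ j) ≤ b₀ := by
          have : 2 ^ j ≤ b₀ := by rw [← hj₀]; exact Nat.pow_log_le_self 2 (by omega)
          exact_mod_cast this
        have h3 := hC ((2 : ℝ) ^ j) ((((S N).image Prod.snd)).filter (fun b => Nat.log 2 b = j))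
          (one_le_pow₀ (by norm_num)) (by
            intro b hb
            rw [Finset.mem_filter] at hb
            obtain ⟨hb, hj⟩ := hb
            obtain ⟨a, ha, hL⟩ := hF N b hb
            have hb1 : b ≠ 0 := by have := hL.1; omega
            refine ⟨?_, ?_, a, hL⟩
            · have : 2 ^ j ≤ b := by rw [← hj]; exact Nat.pow_log_le_self 2 hb1
              exact_mod_cast this
            · have : b < 2 ^ (j + 1) := by rw [← hj]; exact Nat.lt_pow_succ_log_self (by norm_num) b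
              have h4 : (b : ℝ) ≤ (2 : ℝ) ^ (j + 1) := by exact_mod_cast this.le
              rw [pow_succ] at h4
              linarith)
        refine le_trans h3 (mul_le_mul_of_nonneg_left ?_ hC0)
        calc ((2 : ℝ) ^ j) ^ ((n : ℝ) / m / 2 + ε / 2) ≤ (b₀ : ℝ) ^ ((n : ℝ) / m / 2 + ε / 2) :=
              Real.rpow_le_rpow (by positivity) hX (by positivity)
          _ ≤ 2 * (N : ℝ) ^ (1 / 2 + ε / 2) := size_b hm (by positivity) hN ha₀ hL₀.2.1 hb2 hbn
      · rw [Finset.not_nonempty_iff_eq_empty] at hne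
        rw [hne]
        simp only [Finset.card_empty, Nat.cast_zero]
        positivity
    have hsum : ((S N).image Prod.snd).card =
        ∑ j ∈ Finset.range (Nat.log 2 N + 1),
          ((((S N).image Prod.snd)).filter (fun b => Nat.log 2 b = j)).card := by
      apply Finset.card_eq_sum_card_fiberwise
      intro b hb
      obtain ⟨a, ha, hL⟩ := hF N b hb
      have hbN : b ≤ N := by have := hL.2.1; omega
      have := Nat.log_mono_right (b := 2) hbN
      simp only [Finset.coe_range, Set.mem_Iio]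
      omega
    have hlog := LE.TOTM.log_bound hs1 hN
    calc ((S N).card : ℝ) = ((((S N).image Prod.snd).card : ℕ) : ℝ) := by rw [hcard N]
      _ = ∑ j ∈ Finset.range (Nat.log 2 N + 1),
          (((((S N).image Prod.snd)).filter (fun b => Nat.log 2 b = j)).card : ℝ) := by
            rw [hsum]; push_cast; rfl
      _ ≤ ∑ j ∈ Finset.range (Nat.log 2 N + 1), C * (2 * (N : ℝ) ^ (1 / 2 + ε / 2)) :=
          Finset.sum_le_sum (fun j _ => hpart j)
      _ = ((Nat.log 2 N + 1 : ℕ) : ℝ) * (C * (2 * (N : ℝ) ^ (1 / 2 + ε / 2))) := by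
          rw [Finset.sum_const, Finset.card_range, nsmul_eq_mul]
      _ ≤ ((2 * s + 1) * (N : ℝ) ^ (1 / (s : ℝ))) * (C * (2 * (N : ℝ) ^ (1 / 2 + ε / 2))) :=
          mul_le_mul_of_nonneg_right hlog (by positivity)
      _ ≤ ((2 * s + 1) * (N : ℝ) ^ (ε / 2)) * (C * (2 * (N : ℝ) ^ (1 / 2 + ε / 2))) := by
          apply mul_le_mul_of_nonneg_right _ (by positivity)
          apply mul_le_mul_of_nonneg_left _ (by positivity)
          exact Real.rpow_le_rpow_of_exponent_le hN1 hse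
      _ = (2 * s + 1) * (C * 2) * ((N : ℝ) ^ (ε / 2) * (N : ℝ) ^ (1 / 2 + ε / 2)) := by ring
      _ = (2 * s + 1) * (C * 2) * (N : ℝ) ^ (1 / 2 + ε) := by
          rw [← Real.rpow_add hN0]
          congr 2
          ring

end Pool.Agent.Lib.MP3c6092.SR
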