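import Pool.Agent.Lib.MP_3c6092_nt.SR.Spec

/-!
# MP_3c6092_nt, SR, module PA3: the exponents (3, 4) and (3, 5)
-/

set_option autoImplicit false

namespace Pool.Agent.Lib.MP3c6092.SR

open Finset Pool.Agent.Lib.MP3c6092

namespace PA3M

theorem sumS5 (h θ : ℝ) : ∑ v ∈ S5, (h - w θ v) = 5 * h - 4 - 2 * θ := by
  unfold S5
  rw [Finset.sum_insert (by decide), Finset.sum_insert (by decide), Finset.sum_insert (by decide),
    Finset.sum_insert (by decide), Finset.sum_singleton]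
  simp only [w]
  push_cast
  ring

theorem sumK (h ρ : ℝ) : ∑ k ∈ range 4, (h - (k : ℝ) * ρ) = 4 * h - 6 * ρ := by
  simp only [Finset.sum_range_succ, Finset.sum_range_zero]
  push_cast
  ring

theorem memS5 {v : ℕ × ℕ} (hv : v ∈ S5) {θ h : ℝ} (h1 : 1 + θ ≤ h) (h2 : 2 ≤ h) :
    w θ v ≤ h := by
  unfold S5 at hv
  simp only [Finset.mem_insert, Finset.mem_singleton] at hv
  rcases hv with rfl | rfl | rfl | rfl | rfl <;> simp only [w] <;> push_cast <;> linarith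

theorem memK {k : ℕ} (hk : k < 4) {ρ h : ℝ} (h0 : 0 ≤ ρ) (h1 : 3 * ρ ≤ h) : (k : ℝ) * ρ ≤ h := by
  have hk' : (k : ℝ) ≤ 3 := by exact_mod_cast (by omega : k ≤ 3)
  have h2 : (k : ℝ) * ρ ≤ 3 * ρ := mul_le_mul_of_nonneg_right hk' h0
  linarith

theorem core (hHYP : SpecHYP) (hINT : SpecINT) (n : ℕ) (hn3 : 3 < n) (hn6 : n < 6) (κ : ℝ)
    (θ κ' h : ℝ) (hθ : θ = (n : ℝ) / ((3 : ℕ) : ℝ)) (hk0 : 0 < κ')
    (hk1 : κ' ≤ κ / 2) (c1 : 4 - θ - 6 * κ' < h) (c3 : h < θ * 2)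
    (c4 : 1 + θ ≤ h) (c5 : 3 * (θ / 2 + κ') ≤ h) :
    ∃ C : ℝ, 0 ≤ C ∧ ∀ (X : ℝ) (F : Finset ℕ), 1 ≤ X →
      (∀ b ∈ F, X ≤ b ∧ (b : ℝ) ≤ 2 * X ∧ ∃ a, Lc a b 3 n) →
      (F.card : ℝ) ≤ C * X ^ (θ / 2 + κ) := by
  have hr0 : 0 < θ / 2 + κ' := by linarith
  obtain ⟨C, hC0, hC⟩ := hINT S5 3 n 4 (θ / 2 + κ') h (κ / 2) le_rfl hn3 (by omega) hr0
    (by linarith)
    (by rw [← hθ, sumS5, sumK]; linarith)
    (by push_cast; linarith)
    (by rw [← hθ]; push_cast; linarith)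
    (fun v hv => by rw [← hθ]; exact memS5 hv c4 (by linarith))
    (fun k hk => memK hk hr0.le c5)
    (hHYP n h (κ / 2) hn3 hn6 (by linarith) (by linarith))
  refine ⟨C, hC0, fun X F hX hF => (hC X F hX hF).trans ?_⟩
  exact mul_le_mul_of_nonneg_left (Real.rpow_le_rpow_of_exponent_le hX (by linarith)) hC0

end PA3M

theorem specPA3 (hHYP : SpecHYP) (hINT : SpecINT) : SpecPA3 := by
  intro n hn3 hn6 κ hκ
  have hm0 : 0 < min (κ / 2) (1 / 100 : ℝ) := lt_min (by linarith) (by norm_num)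
  have hm1 : min (κ / 2) (1 / 100 : ℝ) ≤ κ / 2 := min_le_left _ _
  have hm2 : min (κ / 2) (1 / 100 : ℝ) ≤ 1 / 100 := min_le_right _ _
  have hn : n = 4 ∨ n = 5 := by omega
  rcases hn with rfl | rfl
  · have hθ : ((4 : ℕ) : ℝ) / ((3 : ℕ) : ℝ) = 4 / 3 := by norm_num
    have := PA3M.core hHYP hINT 4 (by norm_num) (by norm_num) κ (4 / 3)
      (min (κ / 2) (1 / 100 : ℝ)) (8 / 3 - 3 * min (κ / 2) (1 / 100 : ℝ)) hθ.symm
      hm0 hm1 (by linarith) (by linarith) (by linarith) (by linarith)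
    rw [hθ]
    exact this
  · have hθ : ((5 : ℕ) : ℝ) / ((3 : ℕ) : ℝ) = 5 / 3 := by norm_num
    have := PA3M.core hHYP hINT 5 (by norm_num) (by norm_num) κ (5 / 3)
      (min (κ / 2) (1 / 100 : ℝ)) 3 hθ.symm
      hm0 hm1 (by linarith) (by linarith) (by linarith) (by linarith)
    rw [hθ]
    exact this

end Pool.Agent.Lib.MP3c6092.SR
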