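import Pool.Agent.Lib.MP_3c6092_nt.SR.Spec

/-!
# MP_3c6092_nt, module PA4: `4 ≤ m ≤ 7`
-/

set_option autoImplicit false

namespace Pool.Agent.Lib.MP3c6092.SR

open Finset Pool.Agent.Lib.MP3c6092

namespace PA4M

theorem card_S6 : S6.card = 6 := by decide

theorem snd_le {v : ℕ × ℕ} (hv : v ∈ S6) : v.2 ≤ 2 := by
  simp only [S6, mem_insert, mem_singleton] at hv
  rcases hv with rfl | rfl | rfl | rfl | rfl | rfl <;> norm_num

theorem sum_S6 (f : ℕ × ℕ → ℝ) : ∑ v ∈ S6, f v =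
    f (0, 0) + f (1, 0) + f (0, 1) + f (2, 0) + f (1, 1) + f (0, 2) := by
  have h : S6 = ({(0, 0), (1, 0), (0, 1), (2, 0), (1, 1), (0, 2)} : Finset (ℕ × ℕ)) := rfl
  rw [h]
  rw [sum_insert (by decide), sum_insert (by decide), sum_insert (by decide),
    sum_insert (by decide), sum_insert (by decide), sum_singleton]
  ring

theorem inj (m n : ℕ) (hm : 4 ≤ m) (hc : Nat.Coprime m n) :
    Set.InjOn (w ((n : ℝ) / m)) S6 := by
  intro v hv v' hv' h
  have h2 := snd_le hv
  have h2' := snd_le hv'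
  have hm0 : (m : ℝ) ≠ 0 := by
    have : 0 < m := by omega
    exact_mod_cast this.ne'
  have h3 : (m : ℝ) * v.1 + n * v.2 = m * v'.1 + n * v'.2 := by
    unfold w at h
    field_simp at h
    linarith
  have h4 : (m : ℤ) * v.1 + n * v.2 = m * v'.1 + n * v'.2 := by exact_mod_cast h3
  have h5 : (m : ℤ) ∣ (n : ℤ) * ((v'.2 : ℤ) - v.2) := ⟨(v.1 : ℤ) - v'.1, by linarith⟩
  have hcop : IsCoprime (m : ℤ) (n : ℤ) := Nat.isCoprime_iff_coprime.mpr hc
  have h6 : (m : ℤ) ∣ (v'.2 : ℤ) - v.2 := hcop.dvd_of_dvd_mul_left h5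
  have h7 : (v'.2 : ℤ) - v.2 = 0 := by
    apply Int.eq_zero_of_abs_lt_dvd h6
    rw [abs_lt]
    constructor <;> omega
  have h8 : v.2 = v'.2 := by omega
  have h9 : v.1 = v'.1 := by
    rw [h8] at h4
    have h10 : (m : ℤ) * v.1 = m * v'.1 := by linarith
    have hmz : (m : ℤ) ≠ 0 := by omega
    have := mul_left_cancel₀ hmz h10
    exact_mod_cast this
  exact Prod.ext h9 h8

end PA4M

open PA4M

theorem specPA4 (hCLU : SpecCLU) (hINT : SpecINT) : SpecPA4 := by
  intro m n hm hm7 hc hmn hn κ hκ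
  obtain ⟨θ, hθ⟩ : ∃ θ : ℝ, θ = (n : ℝ) / m := ⟨_, rfl⟩
  have hmR : (0 : ℝ) < m := by
    have : 0 < m := by omega
    exact_mod_cast this
  have hθm : θ * m = n := by
    rw [hθ]
    field_simp
  have hnR : (m : ℝ) + 1 ≤ n := by exact_mod_cast hmn
  have hm7R : (m : ℝ) ≤ 7 := by exact_mod_cast hm7
  have hm4R : (4 : ℝ) ≤ m := by exact_mod_cast hm
  have hθ8 : 8 / 7 ≤ θ := by
    rw [hθ, le_div_iff₀ hmR]
    linarith
  obtain ⟨κ', hκ'⟩ : ∃ κ' : ℝ, κ' = min κ (1 / 100) := ⟨_, rfl⟩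
  have hκ0 : 0 < κ' := by rw [hκ']; exact lt_min hκ (by norm_num)
  have hκκ : κ' ≤ κ := by rw [hκ']; exact min_le_left _ _
  have hκ1 : κ' ≤ 1 / 100 := by rw [hκ']; exact min_le_right _ _
  have h5 : (1 : ℝ) - (n : ℝ) / m * (m - 1) / (S6.card - 1) ≤ (2 - (n : ℝ) / m) / 3 := by
    rw [card_S6, ← hθ]
    push_cast
    by_cases hm5 : m = 4
    · subst hm5
      have h54 : 5 / 4 ≤ θ := by
        rw [hθ, le_div_iff₀ hmR]
        push_cast
        push_cast at hnR
        linarith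
      push_cast
      linarith
    · have hm5R : (5 : ℝ) ≤ m := by
        have : 5 ≤ m := by omega
        exact_mod_cast this
      have h6 : θ * 4 ≤ θ * (m - 1) :=
        mul_le_mul_of_nonneg_left (by linarith) (by linarith)
      linarith
  obtain ⟨W, hW⟩ := hCLU S6 m n (by omega) hmn hn (by rw [card_S6]; norm_num)
    (inj m n hm hc) h5
  obtain ⟨C, hC0, hC⟩ := hINT S6 m n 6 (θ / 2 + κ') (11 / 4 * θ) 0 (by omega) hmn hn
    (by linarith) le_rfl
    (by
      rw [← hθ, sum_S6]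
      simp only [Finset.sum_range_succ, Finset.sum_range_zero, w]
      push_cast
      linarith)
    (by push_cast; linarith)
    (by
      rw [← hθ]
      have h6 : θ * 3 ≤ θ * (m - 1) :=
        mul_le_mul_of_nonneg_left (by linarith) (by linarith)
      linarith)
    (by
      intro v hv
      rw [← hθ]
      simp only [S6, mem_insert, mem_singleton] at hv
      unfold w
      rcases hv with rfl | rfl | rfl | rfl | rfl | rfl <;> push_cast <;> linarith)
    (by
      intro k hk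
      have hk5 : (k : ℝ) ≤ 5 := by
        have : k ≤ 5 := by omega
        exact_mod_cast this
      have h6 : (k : ℝ) * (θ / 2 + κ') ≤ 5 * (θ / 2 + κ') :=
        mul_le_mul_of_nonneg_right hk5 (by linarith)
      linarith)
    ⟨W, Nat.cast_nonneg _, by
      intro X c F hX hc0 _ hF
      rw [Real.rpow_zero, mul_one]
      exact_mod_cast hW X c F hX hc0 hF⟩
  refine ⟨C, hC0, fun X F hX hF => (hC X F hX hF).trans ?_⟩
  apply mul_le_mul_of_nonneg_left _ hC0
  apply Real.rpow_le_rpow_of_exponent_le hX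
  rw [← hθ]
  linarith

end Pool.Agent.Lib.MP3c6092.SR
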