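import Pool.Agent.Lib.MP_3c6092_nt.SR.Spec

/-! # MP_3c6092_nt, SR: module PHO (pigeonhole) -/

set_option autoImplicit false

namespace Pool.Agent.Lib.MP3c6092.SR

open Finset Pool.Agent.Lib.MP3c6092

theorem specPHO : SpecPHO := by
  classical
  intro S K α H B η hη hB hlt
  have hB0 : ∀ k < K, 0 ≤ B k := fun k hk =>
    (Finset.sum_nonneg fun v _ => by positivity).trans (hB k hk)
  set D : Finset (S → ℕ) := Fintype.piFinset (fun v : S => range (H v + 1)) with hD
  set E : Finset (Fin K → ℕ) := Fintype.piFinset (fun k : Fin K => range (⌊2 * B k / η⌋₊ + 1)) with hE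
  set val : (S → ℕ) → ℕ → ℝ := fun c k => ∑ v : S, (c v : ℝ) * α v k with hval
  have hmemD : ∀ c ∈ D, ∀ v : S, c v ≤ H v := by
    intro c hc v
    have := Fintype.mem_piFinset.1 hc v
    rw [mem_range] at this
    omega
  have hvB : ∀ c ∈ D, ∀ k < K, |val c k| ≤ B k := by
    intro c hc k hk
    refine (Finset.abs_sum_le_sum_abs _ _).trans (le_trans ?_ (hB k hk))
    rw [← Finset.sum_coe_sort S]
    refine Finset.sum_le_sum fun v _ => ?_
    rw [abs_mul, abs_of_nonneg (Nat.cast_nonneg (c v) : (0 : ℝ) ≤ (c v : ℝ))]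
    exact mul_le_mul_of_nonneg_right (by exact_mod_cast hmemD c hc v) (abs_nonneg _)
  have hcard : E.card < D.card := by
    have h1 : (E.card : ℝ) < (D.card : ℝ) := by
      rw [hD, hE, Fintype.card_piFinset, Fintype.card_piFinset]
      push_cast
      simp only [card_range]
      push_cast
      calc ∏ k : Fin K, ((⌊2 * B k / η⌋₊ : ℝ) + 1) ≤ ∏ k : Fin K, (2 * B k / η + 1) := by
            refine Finset.prod_le_prod (fun k _ => by positivity) fun k _ => ?_
            have h2 : 0 ≤ 2 * B k / η := by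
              have := hB0 k k.2
              positivity
            have := Nat.floor_le h2
            linarith
        _ = ∏ k ∈ range K, (2 * B k / η + 1) := by
            rw [Finset.prod_range]
        _ < ∏ v ∈ S, ((H v : ℝ) + 1) := hlt
        _ = ∏ v : S, ((H v : ℝ) + 1) := (Finset.prod_coe_sort S (fun v => (H v : ℝ) + 1)).symm
    exact_mod_cast h1
  obtain ⟨c, hc, c', hc', hne, heq⟩ := Finset.exists_ne_map_eq_of_card_lt_of_maps_to hcard
    (f := fun (c : S → ℕ) (k : Fin K) => ⌊(val c k + B k) / η⌋₊) (by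
      intro c hc
      rw [hE, mem_coe, Fintype.mem_piFinset]
      intro k
      rw [mem_range, Nat.lt_succ_iff]
      refine Nat.floor_le_floor ?_
      refine div_le_div_of_nonneg_right ?_ hη.le
      have := (abs_le.1 (hvB c hc k k.2)).2
      linarith)
  obtain ⟨v0, hv0⟩ := Function.ne_iff.1 hne
  set d : ℕ × ℕ → ℤ := fun v => if h : v ∈ S then (c ⟨v, h⟩ : ℤ) - c' ⟨v, h⟩ else 0 with hd
  have hdS : ∀ v : S, d v = (c v : ℤ) - c' v := by
    intro v
    rw [hd]
    simp only
    rw [dif_pos v.2]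
  refine ⟨d, ⟨v0, v0.2, ?_⟩, ?_, ?_⟩
  · rw [hdS v0, sub_ne_zero]
    exact_mod_cast hv0
  · intro v hv
    rw [hdS ⟨v, hv⟩, abs_le]
    have h1 := hmemD c hc ⟨v, hv⟩
    have h2 := hmemD c' hc' ⟨v, hv⟩
    have h1' : ((c ⟨v, hv⟩ : ℕ) : ℤ) ≤ (H v : ℤ) := by exact_mod_cast h1
    have h2' : ((c' ⟨v, hv⟩ : ℕ) : ℤ) ≤ (H v : ℤ) := by exact_mod_cast h2
    constructor <;> omega
  · intro k hk
    have h1 : ∑ v ∈ S, (d v : ℝ) * α v k = val c k - val c' k := by
      rw [← Finset.sum_coe_sort S, hval]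
      simp only
      rw [← Finset.sum_sub_distrib]
      refine Finset.sum_congr rfl fun v _ => ?_
      rw [hdS v]
      push_cast
      ring
    rw [h1]
    have h2 : ⌊(val c k + B k) / η⌋₊ = ⌊(val c' k + B k) / η⌋₊ := congrFun heq ⟨k, hk⟩
    have p1 : 0 ≤ (val c k + B k) / η := by
      have := (abs_le.1 (hvB c hc k hk)).1
      exact div_nonneg (by linarith) hη.le
    have p2 : 0 ≤ (val c' k + B k) / η := by
      have := (abs_le.1 (hvB c' hc' k hk)).1
      exact div_nonneg (by linarith) hη.le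
    have a1 := Nat.floor_le p1
    have a2 := Nat.lt_floor_add_one ((val c k + B k) / η)
    have b1 := Nat.floor_le p2
    have b2 := Nat.lt_floor_add_one ((val c' k + B k) / η)
    rw [h2] at a1 a2
    have h3 : |(val c k + B k) / η - (val c' k + B k) / η| ≤ 1 := by
      rw [abs_le]
      constructor <;> linarith
    have h4 : (val c k + B k) / η - (val c' k + B k) / η = (val c k - val c' k) / η := by ring
    rw [h4, abs_div, abs_of_pos hη, div_le_one hη] at h3
    exact h3

end Pool.Agent.Lib.MP3c6092.SR
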