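import Pool.Agent.Lib.MP_3c6092_nt.SR.Spec

/-! Module REL (helper99): one relation for all points of an interval. -/

set_option autoImplicit false

namespace Pool.Agent.Lib.MP3c6092.SR

open Finset Pool.Agent.Lib.MP3c6092

namespace RELM

theorem w_nonneg {θ : ℝ} (hθ : 0 ≤ θ) (v : ℕ × ℕ) : 0 ≤ w θ v := by
  unfold w
  positivity

theorem upow (X ρ : ℝ) (hX : 0 < X) (k : ℕ) : (X ^ (-ρ)) ^ k = X ^ (-((k : ℝ) * ρ)) := by
  rw [← Real.rpow_natCast, ← Real.rpow_mul hX.le]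
  congr 1
  ring

theorem term {X x₀ h s p : ℝ} (hX : 1 ≤ X) (h1 : X ≤ x₀) (h2 : x₀ ≤ 2 * X) (hs : 0 ≤ s) (c : ℝ)
    (hc : |c| ≤ X ^ (h - s)) (y D : ℝ) (hy : |y| ≤ D * X ^ (-p)) :
    |c * x₀ ^ s * y| ≤ 2 ^ s * D * X ^ (h - p) := by
  have hX0 : 0 < X := by linarith
  have hx0 : 0 < x₀ := by linarith
  have h3 : |x₀ ^ s| ≤ 2 ^ s * X ^ s := by
    rw [abs_of_nonneg (Real.rpow_nonneg hx0.le s), ← Real.mul_rpow (by norm_num) hX0.le]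
    exact Real.rpow_le_rpow hx0.le h2 hs
  have h4 : |c * x₀ ^ s| ≤ X ^ (h - s) * (2 ^ s * X ^ s) := by
    rw [abs_mul]
    exact mul_le_mul hc h3 (abs_nonneg _) (Real.rpow_nonneg hX0.le _)
  have h5 : |c * x₀ ^ s * y| ≤ X ^ (h - s) * (2 ^ s * X ^ s) * (D * X ^ (-p)) := by
    rw [abs_mul]
    exact mul_le_mul h4 hy (abs_nonneg _) (by positivity)
  refine h5.trans (le_of_eq ?_)
  have h6 : X ^ (h - p) = X ^ (h - s) * X ^ s * X ^ (-p) := by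
    rw [← Real.rpow_add hX0, ← Real.rpow_add hX0]
    congr 1
    ring
  rw [h6]
  ring

theorem core (hPHO : SpecPHO) (S : Finset (ℕ × ℕ)) (m n K : ℕ) (ρ h θ : ℝ)
    (hθ : 0 ≤ θ) (hk : ∀ k < K, (k : ℝ) * ρ ≤ h)
    (γ : ℕ × ℕ → ℕ → ℝ) (Cv rv Ce : ℕ × ℕ → ℝ)
    (hT : ∀ v (t : ℝ), |t| ≤ rv v →
      |(1 + t) ^ (w θ v) - ∑ k ∈ range K, γ v k * t ^ k| ≤ Cv v * |t| ^ K)
    (hCv : ∀ v, 0 ≤ Cv v)
    (hE : ∀ v (X : ℝ) (a b : ℕ), 1 ≤ X → X ≤ b → (b : ℝ) ≤ 2 * X → Lc a b m n →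
      |(b : ℝ) ^ v.1 * (a : ℝ) ^ v.2 - (b : ℝ) ^ w θ v| ≤ Ce v * X ^ (w θ v - θ * (m - 1)))
    (C1 : ℝ) (hC10 : 0 ≤ C1) (hC1 : ∀ k < K, ∑ v ∈ S, 2 ^ (w θ v) * |γ v k| ≤ C1)
    (X x₀ : ℝ) (hX : 1 ≤ X) (h1 : X ≤ x₀) (h2 : x₀ ≤ 2 * X)
    (e2 : (8 * (K + 1) * C1 + 1) ^ K < X ^ (∑ v ∈ S, (h - w θ v) - ∑ k ∈ range K, (h - k * ρ)))
    (e3 : ∀ v ∈ S, X ^ (-ρ) ≤ rv v)
    (e4 : (∑ v ∈ S, 2 ^ (w θ v) * Cv v) * X ^ (h - K * ρ) < 1 / 4)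
    (e5 : (∑ v ∈ S, Ce v) * X ^ (h - θ * (m - 1)) < 1 / 4) :
    ∃ c : ℕ × ℕ → ℤ, (∃ v ∈ S, c v ≠ 0) ∧ (∀ v ∈ S, |(c v : ℝ)| ≤ X ^ h) ∧
      ∀ a b : ℕ, X ≤ b → (b : ℝ) ≤ 2 * X → |(b : ℝ) - x₀| ≤ X ^ (1 - ρ) → Lc a b m n →
        Rel S c b a := by
  have hX0 : 0 < X := by linarith
  have hx0 : 0 < x₀ := by linarith
  have hu0 : 0 < X ^ (-ρ) := Real.rpow_pos_of_pos hX0 _
  have hA : ∀ k < K, ∑ v ∈ S, ((⌊X ^ (h - w θ v)⌋₊ : ℕ) : ℝ) *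
      |x₀ ^ w θ v * γ v k * (X ^ (-ρ)) ^ k| ≤ C1 * X ^ (h - k * ρ) := by
    intro k hk'
    calc ∑ v ∈ S, ((⌊X ^ (h - w θ v)⌋₊ : ℕ) : ℝ) * |x₀ ^ w θ v * γ v k * (X ^ (-ρ)) ^ k|
        ≤ ∑ v ∈ S, 2 ^ (w θ v) * |γ v k| * X ^ (h - k * ρ) := by
          refine sum_le_sum fun v hv => ?_
          have h3 := term hX h1 h2 (w_nonneg hθ v) ((⌊X ^ (h - w θ v)⌋₊ : ℕ) : ℝ) (h := h)
            (by
              rw [abs_of_nonneg (Nat.cast_nonneg _)]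
              exact Nat.floor_le (Real.rpow_nonneg hX0.le _))
            (γ v k * (X ^ (-ρ)) ^ k) |γ v k| (p := (k : ℝ) * ρ)
            (by
              rw [abs_mul, upow X ρ hX0 k, abs_of_nonneg (Real.rpow_nonneg hX0.le _)])
          refine le_trans (le_of_eq ?_) h3
          rw [mul_assoc ((⌊X ^ (h - w θ v)⌋₊ : ℕ) : ℝ), abs_mul ((⌊X ^ (h - w θ v)⌋₊ : ℕ) : ℝ),
            abs_of_nonneg (Nat.cast_nonneg (⌊X ^ (h - w θ v)⌋₊) : (0 : ℝ) ≤ _), mul_assoc]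
      _ = (∑ v ∈ S, 2 ^ (w θ v) * |γ v k|) * X ^ (h - k * ρ) := by rw [sum_mul]
      _ ≤ C1 * X ^ (h - k * ρ) :=
          mul_le_mul_of_nonneg_right (hC1 k hk') (Real.rpow_nonneg hX0.le _)
  have hB : ∏ k ∈ range K, (2 * (C1 * X ^ (h - k * ρ)) / (1 / (4 * ((K : ℝ) + 1))) + 1) <
      ∏ v ∈ S, (((⌊X ^ (h - w θ v)⌋₊ : ℕ) : ℝ) + 1) := by
    have e1 : ∏ k ∈ range K, (2 * (C1 * X ^ (h - k * ρ)) / (1 / (4 * ((K : ℝ) + 1))) + 1) ≤
        ∏ k ∈ range K, ((8 * (K + 1) * C1 + 1) * X ^ (h - k * ρ)) := by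
      refine prod_le_prod (fun k _ => by positivity) fun k hk' => ?_
      have h3 : 1 ≤ X ^ (h - k * ρ) :=
        Real.one_le_rpow hX (by linarith [hk k (mem_range.1 hk')])
      have h4 : 2 * (C1 * X ^ (h - k * ρ)) / (1 / (4 * ((K : ℝ) + 1))) =
          8 * (K + 1) * C1 * X ^ (h - k * ρ) := by
        rw [div_div_eq_mul_div]
        ring
      rw [h4]
      linarith
    have e1' : ∏ k ∈ range K, ((8 * (K + 1) * C1 + 1) * X ^ (h - k * ρ)) =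
        (8 * (K + 1) * C1 + 1) ^ K * X ^ (∑ k ∈ range K, (h - k * ρ)) := by
      rw [prod_mul_distrib, prod_const, card_range, Real.rpow_sum_of_pos hX0]
    have e6 : X ^ (∑ v ∈ S, (h - w θ v)) ≤ ∏ v ∈ S, (((⌊X ^ (h - w θ v)⌋₊ : ℕ) : ℝ) + 1) := by
      rw [Real.rpow_sum_of_pos hX0]
      exact prod_le_prod (fun v _ => Real.rpow_nonneg hX0.le _)
        fun v _ => (Nat.lt_floor_add_one _).le
    have e7 : (8 * (K + 1) * C1 + 1) ^ K * X ^ (∑ k ∈ range K, (h - k * ρ)) <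
        X ^ (∑ v ∈ S, (h - w θ v)) := by
      calc (8 * (K + 1) * C1 + 1) ^ K * X ^ (∑ k ∈ range K, (h - k * ρ))
          < X ^ (∑ v ∈ S, (h - w θ v) - ∑ k ∈ range K, (h - k * ρ)) *
            X ^ (∑ k ∈ range K, (h - k * ρ)) :=
            mul_lt_mul_of_pos_right e2 (Real.rpow_pos_of_pos hX0 _)
        _ = X ^ (∑ v ∈ S, (h - w θ v)) := by
            rw [← Real.rpow_add hX0, sub_add_cancel]
    rw [e1'] at e1
    exact (e1.trans_lt e7).trans_le e6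
  obtain ⟨c, hc0, hcH, hcη⟩ := hPHO S K (fun v k => x₀ ^ w θ v * γ v k * (X ^ (-ρ)) ^ k)
    (fun v => ⌊X ^ (h - w θ v)⌋₊) (fun k => C1 * X ^ (h - k * ρ)) (1 / (4 * ((K : ℝ) + 1)))
    (by positivity) hA hB
  have hcv : ∀ v ∈ S, |(c v : ℝ)| ≤ X ^ (h - w θ v) := by
    intro v hv
    have h5 : |(c v : ℝ)| ≤ ((⌊X ^ (h - w θ v)⌋₊ : ℕ) : ℝ) := by exact_mod_cast hcH v hv
    exact h5.trans (Nat.floor_le (Real.rpow_nonneg hX0.le _))
  refine ⟨c, hc0, fun v hv => (hcv v hv).trans (Real.rpow_le_rpow_of_exponent_le hX ?_),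
    fun a b hb1 hb2 hb hL => ?_⟩
  · linarith [w_nonneg hθ v]
  · set t : ℝ := (b : ℝ) / x₀ - 1 with ht
    have hbx : (b : ℝ) = x₀ * (1 + t) := by
      rw [ht]
      field_simp
      ring
    have h1t : 0 ≤ 1 + t := by
      have : 1 + t = (b : ℝ) / x₀ := by rw [ht]; ring
      rw [this]
      positivity
    have htu : |t| ≤ X ^ (-ρ) := by
      have h3 : t = ((b : ℝ) - x₀) / x₀ := by
        rw [ht]
        field_simp
      have h4 : X ^ (1 - ρ) = X ^ (-ρ) * X := by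
        rw [sub_eq_neg_add, Real.rpow_add hX0, Real.rpow_one]
      rw [h3, abs_div, abs_of_pos hx0, div_le_iff₀ hx0]
      rw [h4] at hb
      exact hb.trans (mul_le_mul_of_nonneg_left h1 hu0.le)
    have hR : ∀ v ∈ S, |(1 + t) ^ (w θ v) - ∑ k ∈ range K, γ v k * t ^ k| ≤
        Cv v * X ^ (-((K : ℝ) * ρ)) := by
      intro v hv
      refine (hT v t (htu.trans (e3 v hv))).trans ?_
      rw [← upow X ρ hX0 K]
      exact mul_le_mul_of_nonneg_left (pow_le_pow_left₀ (abs_nonneg _) htu K) (hCv v)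
    have p1 : |∑ v ∈ S, (c v : ℝ) * ((b : ℝ) ^ v.1 * (a : ℝ) ^ v.2 - (b : ℝ) ^ w θ v)| < 1 / 4 := by
      refine lt_of_le_of_lt ?_ e5
      rw [sum_mul]
      refine (abs_sum_le_sum_abs _ _).trans (sum_le_sum fun v hv => ?_)
      rw [abs_mul]
      refine (mul_le_mul (hcv v hv) (hE v X a b hX hb1 hb2 hL) (abs_nonneg _)
        (Real.rpow_nonneg hX0.le _)).trans (le_of_eq ?_)
      have h6 : X ^ (h - θ * (m - 1)) = X ^ (h - w θ v) * X ^ (w θ v - θ * (m - 1)) := by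
        rw [← Real.rpow_add hX0]
        congr 1
        ring
      rw [h6]
      ring
    have p2 : |∑ v ∈ S, (c v : ℝ) * x₀ ^ w θ v *
        ((1 + t) ^ (w θ v) - ∑ k ∈ range K, γ v k * t ^ k)| < 1 / 4 := by
      refine lt_of_le_of_lt ?_ e4
      rw [sum_mul]
      refine (abs_sum_le_sum_abs _ _).trans (sum_le_sum fun v hv => ?_)
      exact term hX h1 h2 (w_nonneg hθ v) _ (hcv v hv) _ _ (hR v hv)
    have p3 : |∑ v ∈ S, (c v : ℝ) * x₀ ^ w θ v * ∑ k ∈ range K, γ v k * t ^ k| ≤ 1 / 4 := by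
      have h7 : ∑ v ∈ S, (c v : ℝ) * x₀ ^ w θ v * ∑ k ∈ range K, γ v k * t ^ k =
          ∑ k ∈ range K, (∑ v ∈ S, (c v : ℝ) * (x₀ ^ w θ v * γ v k * (X ^ (-ρ)) ^ k)) *
            (t / X ^ (-ρ)) ^ k := by
        simp_rw [mul_sum, sum_mul]
        rw [sum_comm]
        refine sum_congr rfl fun k _ => sum_congr rfl fun v _ => ?_
        rw [div_pow]
        have : (X ^ (-ρ)) ^ k ≠ 0 := (pow_pos hu0 k).ne'
        field_simp
      rw [h7]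
      have h8 : ∀ k ∈ range K, |(∑ v ∈ S, (c v : ℝ) * (x₀ ^ w θ v * γ v k * (X ^ (-ρ)) ^ k)) *
            (t / X ^ (-ρ)) ^ k| ≤ 1 / (4 * ((K : ℝ) + 1)) := by
        intro k hk'
        rw [abs_mul]
        have h9 : |(t / X ^ (-ρ)) ^ k| ≤ 1 := by
          rw [abs_pow, abs_div, abs_of_pos hu0]
          exact pow_le_one₀ (by positivity) ((div_le_one hu0).2 htu)
        have h10 := hcη k (mem_range.1 hk')
        calc _ ≤ 1 / (4 * ((K : ℝ) + 1)) * 1 :=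
              mul_le_mul h10 h9 (abs_nonneg _) (by positivity)
          _ = _ := mul_one _
      refine (abs_sum_le_sum_abs _ _).trans ((sum_le_sum h8).trans ?_)
      rw [sum_const, card_range, nsmul_eq_mul]
      have h11 : (0 : ℝ) < 4 * ((K : ℝ) + 1) := by positivity
      rw [mul_one_div, div_le_div_iff₀ h11 (by norm_num)]
      linarith
    have hsum : ((∑ v ∈ S, c v * ((b : ℤ) ^ v.1 * (a : ℤ) ^ v.2) : ℤ) : ℝ) =
        ∑ v ∈ S, (c v : ℝ) * ((b : ℝ) ^ v.1 * (a : ℝ) ^ v.2 - (b : ℝ) ^ w θ v) +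
        ∑ v ∈ S, (c v : ℝ) * x₀ ^ w θ v *
          ((1 + t) ^ (w θ v) - ∑ k ∈ range K, γ v k * t ^ k) +
        ∑ v ∈ S, (c v : ℝ) * x₀ ^ w θ v * ∑ k ∈ range K, γ v k * t ^ k := by
      rw [← sum_add_distrib, ← sum_add_distrib]
      push_cast
      refine sum_congr rfl fun v _ => ?_
      have h12 : (b : ℝ) ^ w θ v = x₀ ^ w θ v * (1 + t) ^ w θ v := by
        rw [← Real.mul_rpow hx0.le h1t, ← hbx]
      rw [h12]
      ring
    unfold Rel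
    have habs : |((∑ v ∈ S, c v * ((b : ℤ) ^ v.1 * (a : ℤ) ^ v.2) : ℤ) : ℝ)| < 1 := by
      rw [hsum]
      refine (abs_add_le _ _).trans_lt ?_
      have h13 := abs_add_le (∑ v ∈ S, (c v : ℝ) *
          ((b : ℝ) ^ v.1 * (a : ℝ) ^ v.2 - (b : ℝ) ^ w θ v))
        (∑ v ∈ S, (c v : ℝ) * x₀ ^ w θ v *
          ((1 + t) ^ (w θ v) - ∑ k ∈ range K, γ v k * t ^ k))
      linarith
    refine Int.abs_lt_one_iff.1 ?_
    exact_mod_cast habs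

end RELM

theorem specREL (hTAY : SpecTAY) (hPHO : SpecPHO) (hERL : SpecERL) : SpecREL := by
  intro S m n K ρ h hm hmn hn2 hρ hsum hhK hhm hw hk
  set θ : ℝ := (n : ℝ) / m with hθ'
  have hθ : 0 ≤ θ := by rw [hθ']; positivity
  choose γ Cv rv hrv hCv hT using fun v : ℕ × ℕ => hTAY (w θ v) K
  choose Ce hCe hE using fun v : ℕ × ℕ => hERL m n v.1 v.2 hm hmn hn2
  have hC10 : 0 ≤ ∑ k ∈ range K, ∑ v ∈ S, (2 : ℝ) ^ (w θ v) * |γ v k| := by positivity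
  have hC1 : ∀ k < K, ∑ v ∈ S, (2 : ℝ) ^ (w θ v) * |γ v k| ≤
      ∑ k ∈ range K, ∑ v ∈ S, (2 : ℝ) ^ (w θ v) * |γ v k| := by
    intro k hk'
    exact single_le_sum (f := fun k => ∑ v ∈ S, (2 : ℝ) ^ (w θ v) * |γ v k|)
      (fun i _ => by positivity) (mem_range.2 hk')
  have ev : ∀ᶠ X : ℝ in Filter.atTop, 1 ≤ X ∧
      (8 * ((K : ℝ) + 1) * (∑ k ∈ range K, ∑ v ∈ S, (2 : ℝ) ^ (w θ v) * |γ v k|) + 1) ^ K <
        X ^ (∑ v ∈ S, (h - w θ v) - ∑ k ∈ range K, (h - k * ρ)) ∧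
      (∀ v ∈ S, X ^ (-ρ) ≤ rv v) ∧
      (∑ v ∈ S, 2 ^ (w θ v) * Cv v) * X ^ (h - K * ρ) < 1 / 4 ∧
      (∑ v ∈ S, Ce v) * X ^ (h - θ * (m - 1)) < 1 / 4 := by
    have t0 : ∀ (A e : ℝ), e < 0 → ∀ᶠ X : ℝ in Filter.atTop, A * X ^ e < 1 / 4 := by
      intro A e he
      have h3 := (tendsto_rpow_neg_atTop (y := -e) (by linarith)).const_mul A
      rw [mul_zero] at h3
      have h4 := h3.eventually (gt_mem_nhds (show (0 : ℝ) < 1 / 4 by norm_num))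
      rw [neg_neg] at h4
      exact h4
    refine (Filter.eventually_ge_atTop 1).and (Filter.Eventually.and ?_
      (Filter.Eventually.and ?_ (Filter.Eventually.and ?_ ?_)))
    · exact (tendsto_rpow_atTop (by linarith)).eventually_gt_atTop _
    · rw [Finset.eventually_all]
      intro v hv
      exact (tendsto_rpow_neg_atTop hρ).eventually (ge_mem_nhds (hrv v))
    · exact t0 _ _ (by linarith)
    · exact t0 _ _ (by linarith)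
  obtain ⟨X₀, hX₀⟩ := Filter.eventually_atTop.1 ev
  refine ⟨max 1 X₀, le_max_left _ _, fun X x₀ hX h1 h2 => ?_⟩
  obtain ⟨a1, a2, a3, a4, a5⟩ := hX₀ X ((le_max_right _ _).trans hX)
  exact RELM.core hPHO S m n K ρ h θ hθ hk γ Cv rv Ce hT hCv
    (fun v X a b h3 h4 h5 h6 => hE v X a b h3 h4 h5 h6) _ hC10 hC1 X x₀ a1 h1 h2 a2 a3 a4 a5

end Pool.Agent.Lib.MP3c6092.SR
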