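import Pool.Agent.Lib.MP_3c6092_nt.SR.Spec

/-!
# MP_3c6092_nt, module TRI: short intervals have few points
-/

set_option autoImplicit false

namespace Pool.Agent.Lib.MP3c6092.SR

open Finset Pool.Agent.Lib.MP3c6092

theorem specTRI : SpecTRI := by
  intro m n X G hm hmn hn2 hX64 hG hdiam
  classical
  have hm0 : (0 : ℝ) < m := by exact_mod_cast (by omega : 0 < m)
  obtain ⟨θ, hθ⟩ : ∃ θ : ℝ, θ = (n : ℝ) / m := ⟨_, rfl⟩
  have hθ1 : 1 < θ := by
    rw [hθ, lt_div_iff₀ hm0, one_mul]; exact_mod_cast hmn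
  have hθ2 : θ < 2 := by
    rw [hθ, div_lt_iff₀ hm0]; exact_mod_cast hn2
  have hθm : 1 / (m : ℝ) ≤ θ - 1 := by
    have h1 : θ - 1 = ((n : ℝ) - m) / m := by rw [hθ]; field_simp
    rw [h1]
    have h2 : (m : ℝ) + 1 ≤ n := by exact_mod_cast hmn
    gcongr
    linarith
  rw [← hθ] at hdiam
  by_contra hc
  push Not at hc
  have hne : G.Nonempty := Finset.card_pos.mp (by omega)
  set b1 := G.min' hne with hb1
  set b3 := G.max' hne with hb3
  have hb1G : b1 ∈ G := G.min'_mem hne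
  have hb3G : b3 ∈ G := G.max'_mem hne
  have hsub : G ⊆ Finset.Icc b1 b3 := by
    intro x hx
    rw [Finset.mem_Icc]
    exact ⟨G.min'_le x hx, G.le_max' x hx⟩
  have hcard := Finset.card_le_card hsub
  rw [Nat.card_Icc] at hcard
  obtain ⟨b2, hb2⟩ : ((G.erase b1).erase b3).Nonempty := by
    apply Finset.card_pos.mp
    have h1 := Finset.card_erase_add_one hb1G
    have h2 : (G.erase b1).card - 1 ≤ ((G.erase b1).erase b3).card := Finset.pred_card_le_card_erase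
    omega
  rw [Finset.mem_erase, Finset.mem_erase] at hb2
  obtain ⟨hne3, hne1, hb2G⟩ := hb2
  have h12 : b1 < b2 := lt_of_le_of_ne (G.min'_le b2 hb2G) (Ne.symm hne1)
  have h23 : b2 < b3 := lt_of_le_of_ne (G.le_max' b2 hb2G) hne3
  have hget : ∀ b ∈ G, ∃ a : ℕ, |(a : ℝ) - (b : ℝ) ^ θ| < 2 * X ^ (-θ) := by
    intro b hb
    obtain ⟨hXb, hbX, a, hb1', hba, hne', hle⟩ := hG b hb
    refine ⟨a, ?_⟩
    rw [hθ]
    refine close_X (by omega) (by omega) hmn hX64 hXb ?_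
    have ha1 : (1 : ℝ) ≤ a := by exact_mod_cast (by omega : 1 ≤ a)
    have hb1r : (1 : ℝ) ≤ b := by exact_mod_cast hb1'
    have h3 : (a : ℝ) ≤ (a : ℝ) ^ (m - 2) := by
      calc (a : ℝ) = (a : ℝ) ^ 1 := (pow_one _).symm
        _ ≤ (a : ℝ) ^ (m - 2) := pow_le_pow_right₀ ha1 (by omega)
    linarith
  obtain ⟨a1, e1⟩ := hget b1 hb1G
  obtain ⟨a2, e2⟩ := hget b2 hb2G
  obtain ⟨a3, e3⟩ := hget b3 hb3G
  exact no_triple (by omega : 1 ≤ m) hθ1 hθ2 hθm hX64 (hG b1 hb1G).1 h12 h23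
    (hG b3 hb3G).2.1 (hdiam b3 hb3G b1 hb1G) (by omega) e1 e2 e3

end Pool.Agent.Lib.MP3c6092.SR
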