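import Pool.Agent.Lib.MP_3c6092_nt.SR.Spec

/-!
# MP_3c6092_nt, module ZES: the zero estimate for separated points
-/

set_option autoImplicit false

namespace Pool.Agent.Lib.MP3c6092.SR

open Finset Pool.Agent.Lib.MP3c6092

namespace ZESM

theorem w_nonneg {θ : ℝ} (hθ : 0 ≤ θ) (v : ℕ × ℕ) : 0 ≤ w θ v := by
  unfold w
  positivity

/-- the last step -/
theorem last {X Δ C2 t : ℝ} {K : ℕ} (hK : 1 ≤ K) (hX : 0 < X) (hC : 0 ≤ C2)
    (h : Δ ^ K ≤ C2 * X ^ ((K : ℝ) - t)) : Δ ≤ (C2 + 1) * X ^ (1 - t / K) := by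
  by_contra hcon
  push Not at hcon
  have hK0 : (K : ℝ) ≠ 0 := by
    have : (1 : ℝ) ≤ K := by exact_mod_cast hK
    linarith
  have hp : 0 < X ^ (1 - t / K) := Real.rpow_pos_of_pos hX _
  have h1 : ((C2 + 1) * X ^ (1 - t / K)) ^ K < Δ ^ K :=
    pow_lt_pow_left₀ hcon (by positivity) (by omega)
  have h2 : (X ^ (1 - t / K)) ^ K = X ^ ((K : ℝ) - t) := by
    rw [← Real.rpow_natCast, ← Real.rpow_mul hX.le]
    congr 1
    field_simp
  rw [mul_pow, h2] at h1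
  have h3 : C2 + 1 ≤ (C2 + 1) ^ K := le_self_pow₀ (by linarith) (by omega)
  have h4 : 0 < X ^ ((K : ℝ) - t) := Real.rpow_pos_of_pos hX _
  have h5 := mul_le_mul_of_nonneg_right h3 h4.le
  nlinarith

end ZESM

open ZESM in
theorem specZES (hERL : SpecERL) : SpecZES := by
  intro S m n hm hmn hn hS hinj
  have hm0 : (0 : ℝ) < m := by
    have : 0 < m := by omega
    exact_mod_cast this
  have hθ0 : 0 ≤ (n : ℝ) / m := by positivity
  choose CE hCE0 hCE using fun v : ℕ × ℕ => hERL m n v.1 v.2 hm hmn hn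
  generalize hθ : (n : ℝ) / m = θ at *
  obtain ⟨K, hK⟩ : ∃ K, S.card = K + 1 := ⟨S.card - 1, by omega⟩
  have hK1 : 1 ≤ K := by omega
  have hcard : (S.card : ℝ) - 1 = K := by rw [hK]; push_cast; ring
  have hexp : S.card - 1 = K := by omega
  have hP : ∀ q ∈ S, 0 < ∏ p ∈ S.erase q, |w θ q - w θ p| := fun q hq =>
    Finset.prod_pos fun p hp => abs_pos.2 (sub_ne_zero.2 fun h =>
      (Finset.ne_of_mem_erase hp) (hinj hq (Finset.mem_of_mem_erase hp) h).symm)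
  obtain ⟨A, hA⟩ : ∃ A : ℝ, A = 2 * ∑ v ∈ S, |w θ v| + 1 := ⟨_, rfl⟩
  obtain ⟨C1, hC1⟩ : ∃ C1 : ℝ, C1 = ∑ v ∈ S, CE v := ⟨_, rfl⟩
  obtain ⟨Q, hQ⟩ : ∃ Q : ℝ, Q = ∑ q ∈ S, (∏ p ∈ S.erase q, |w θ q - w θ p|)⁻¹ := ⟨_, rfl⟩
  have hC10 : 0 ≤ C1 := by rw [hC1]; exact Finset.sum_nonneg fun v _ => hCE0 v
  have hQ0 : 0 ≤ Q := by
    rw [hQ]; exact Finset.sum_nonneg fun q hq => (inv_pos.2 (hP q hq)).le
  have hle : ∀ p ∈ S, |w θ p| ≤ ∑ v ∈ S, |w θ v| := fun p hp =>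
    Finset.single_le_sum (f := fun v => |w θ v|) (fun _ _ => abs_nonneg _) hp
  obtain ⟨C2, hC2⟩ : ∃ C2 : ℝ, C2 = C1 * Q * ((2 : ℝ) ^ (A + 2)) ^ K := ⟨_, rfl⟩
  have hC20 : 0 ≤ C2 := by rw [hC2]; positivity
  refine ⟨C2 + 1, by linarith, ?_⟩
  intro X Δ c b a hX hΔ hΔX hc hk hstep
  rw [hexp] at hk hstep
  rw [hcard]
  have hX0 : 0 < X := by linarith
  have hΔ0 : 0 < Δ := by linarith
  refine last hK1 hX0 hC20 ?_
  -- the maximal term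
  obtain ⟨q0, hq0, hmax⟩ := S.exists_max_image (fun v => |(c v : ℝ)| * X ^ w θ v)
    ⟨hc.choose, hc.choose_spec.1⟩
  obtain ⟨V, hVd⟩ : ∃ V : ℝ, V = |(c q0 : ℝ)| * X ^ w θ q0 := ⟨_, rfl⟩
  rw [← hVd] at hmax
  have hV : 0 < V := by
    obtain ⟨v, hv, hcv⟩ := hc
    exact lt_of_lt_of_le (mul_pos (abs_pos.2 (by exact_mod_cast hcv))
      (Real.rpow_pos_of_pos hX0 _)) (hmax v hv)
  obtain ⟨T, hT⟩ : ∃ T : ℝ, T = θ * (m - 1) := ⟨_, rfl⟩
  rw [← hT]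
  have hXT : 0 < X ^ (-T) := Real.rpow_pos_of_pos hX0 _
  have hsum : ∀ k < 2 ^ K, |∑ v ∈ S, (c v : ℝ) * (b k : ℝ) ^ w θ v| ≤ C1 * V * X ^ (-T) := by
    intro k hk'
    obtain ⟨h1, h2, h3, h4⟩ := hk k hk'
    have h5 : ∑ v ∈ S, (c v : ℝ) * ((b k : ℝ) ^ v.1 * (a k : ℝ) ^ v.2) = 0 := by
      have h4' := h4
      unfold Rel at h4'
      exact_mod_cast h4'
    have h6 : ∑ v ∈ S, (c v : ℝ) * (b k : ℝ) ^ w θ v =
        ∑ v ∈ S, (c v : ℝ) * ((b k : ℝ) ^ w θ v - (b k : ℝ) ^ v.1 * (a k : ℝ) ^ v.2) := by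
      simp only [mul_sub, Finset.sum_sub_distrib, h5, sub_zero]
    rw [h6]
    refine (Finset.abs_sum_le_sum_abs _ _).trans ?_
    have h9 : C1 * V * X ^ (-T) = ∑ v ∈ S, CE v * (V * X ^ (-T)) := by
      rw [← Finset.sum_mul, hC1]; ring
    rw [h9]
    refine Finset.sum_le_sum fun v hv => ?_
    rw [abs_mul, abs_sub_comm]
    have h7 := hCE v X (a k) (b k) hX h1 h2 h3
    have h8 := hmax v hv
    have h7' : |(b k : ℝ) ^ v.1 * (a k : ℝ) ^ v.2 - (b k : ℝ) ^ w θ v| ≤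
        CE v * X ^ (w θ v - T) := by
      rw [hT]; exact h7
    calc |(c v : ℝ)| * |(b k : ℝ) ^ v.1 * (a k : ℝ) ^ v.2 - (b k : ℝ) ^ w θ v|
        ≤ |(c v : ℝ)| * (CE v * X ^ (w θ v - T)) :=
          mul_le_mul_of_nonneg_left h7' (abs_nonneg _)
      _ = CE v * ((|(c v : ℝ)| * X ^ w θ v) * X ^ (-T)) := by
          rw [sub_eq_add_neg, Real.rpow_add hX0]; ring
      _ ≤ CE v * (V * X ^ (-T)) :=
          mul_le_mul_of_nonneg_left (mul_le_mul_of_nonneg_right h8 hXT.le) (hCE0 v)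
  -- the lower bound
  obtain ⟨y, hy1, hy2, hy3⟩ := LE.specLBD (ℕ × ℕ) S (w θ) (fun v => (c v : ℝ) * Δ ^ w θ v) q0 A
    (X / Δ) (C1 * V * X ^ (-T)) (fun k => (b k : ℝ) / Δ) hq0 ((one_le_div hΔ0).2 hΔX)
    (by positivity)
    (fun p hp => by
      rw [hA]
      have h1 := hle p hp
      have h2 := abs_nonneg (w θ p)
      linarith)
    (fun p hp q hq => by
      rw [hA]
      have h1 := hle p hp
      have h2 := hle q hq
      have h3 := abs_sub (w θ p) (w θ q)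
      linarith)
    (fun k hk' => by
      rw [hexp] at hk'
      obtain ⟨h1, h2, -, -⟩ := hk k hk'
      constructor
      · exact div_le_div_of_nonneg_right h1 hΔ0.le
      · rw [← mul_div_assoc]
        exact div_le_div_of_nonneg_right h2 hΔ0.le)
    (fun k hk' => by
      rw [hexp] at hk'
      have h1 := hstep k hk'
      rw [div_add_one hΔ0.ne']
      exact div_le_div_of_nonneg_right h1 hΔ0.le)
    (fun k hk' => by
      rw [hexp] at hk'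
      have h1 := hsum k hk'
      have h2 : ∑ p ∈ S, (c p : ℝ) * Δ ^ w θ p * ((b k : ℝ) / Δ) ^ w θ p =
          ∑ v ∈ S, (c v : ℝ) * (b k : ℝ) ^ w θ v := by
        refine Finset.sum_congr rfl fun v _ => ?_
        rw [Real.div_rpow (Nat.cast_nonneg _) hΔ0.le]
        have h3 : Δ ^ w θ v ≠ 0 := (Real.rpow_pos_of_pos hΔ0 _).ne'
        field_simp
      simp only [h2]
      exact h1)
  rw [hexp] at hy3
  have hy0 : 0 < y := lt_of_lt_of_le (div_pos hX0 hΔ0) hy1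
  have hPq := hP q0 hq0
  have h10 : V ≤ |(c q0 : ℝ) * Δ ^ w θ q0| * y ^ w θ q0 := by
    rw [abs_mul, abs_of_pos (Real.rpow_pos_of_pos hΔ0 _), mul_assoc,
      ← Real.mul_rpow hΔ0.le hy0.le, hVd]
    refine mul_le_mul_of_nonneg_left ?_ (abs_nonneg _)
    refine Real.rpow_le_rpow hX0.le ?_ (w_nonneg hθ0 _)
    rw [div_le_iff₀ hΔ0] at hy1
    linarith
  have h11 : V * (∏ p ∈ S.erase q0, |w θ q0 - w θ p|) ≤
      C1 * V * X ^ (-T) * ((2 : ℝ) ^ (A + 2) * (X / Δ)) ^ K :=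
    (mul_le_mul_of_nonneg_right h10 hPq.le).trans hy3
  have h12 : (∏ p ∈ S.erase q0, |w θ q0 - w θ p|) * Δ ^ K ≤
      C1 * ((2 : ℝ) ^ (A + 2)) ^ K * X ^ ((K : ℝ) - T) := by
    have h13 : V * ((∏ p ∈ S.erase q0, |w θ q0 - w θ p|) * Δ ^ K) ≤
        V * (C1 * ((2 : ℝ) ^ (A + 2)) ^ K * X ^ ((K : ℝ) - T)) := by
      have h14 := mul_le_mul_of_nonneg_right h11 (pow_pos hΔ0 K).le
      have h15 : C1 * V * X ^ (-T) * ((2 : ℝ) ^ (A + 2) * (X / Δ)) ^ K * Δ ^ K =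
          V * (C1 * ((2 : ℝ) ^ (A + 2)) ^ K * X ^ ((K : ℝ) - T)) := by
        rw [sub_eq_add_neg, Real.rpow_add hX0, Real.rpow_natCast, mul_pow, div_pow]
        have h16 : Δ ^ K ≠ 0 := (pow_pos hΔ0 K).ne'
        field_simp
      rw [h15] at h14
      linarith
    exact le_of_mul_le_mul_left h13 hV
  have h17 : (∏ p ∈ S.erase q0, |w θ q0 - w θ p|)⁻¹ ≤ Q := by
    rw [hQ]
    exact Finset.single_le_sum (f := fun q => (∏ p ∈ S.erase q, |w θ q - w θ p|)⁻¹)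
      (fun q hq => (inv_pos.2 (hP q hq)).le) hq0
  have h18 : 0 ≤ C1 * ((2 : ℝ) ^ (A + 2)) ^ K * X ^ ((K : ℝ) - T) := by positivity
  calc Δ ^ K = (∏ p ∈ S.erase q0, |w θ q0 - w θ p|)⁻¹ *
        ((∏ p ∈ S.erase q0, |w θ q0 - w θ p|) * Δ ^ K) := by
        rw [← mul_assoc, inv_mul_cancel₀ hPq.ne', one_mul]
    _ ≤ (∏ p ∈ S.erase q0, |w θ q0 - w θ p|)⁻¹ *
        (C1 * ((2 : ℝ) ^ (A + 2)) ^ K * X ^ ((K : ℝ) - T)) :=
        mul_le_mul_of_nonneg_left h12 (inv_pos.2 hPq).le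
    _ ≤ Q * (C1 * ((2 : ℝ) ^ (A + 2)) ^ K * X ^ ((K : ℝ) - T)) :=
        mul_le_mul_of_nonneg_right h17 h18
    _ = C2 * X ^ ((K : ℝ) - T) := by rw [hC2]; ring

end Pool.Agent.Lib.MP3c6092.SR
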