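import Pool.Agent.Lib.MP_3c6092_nt.SR.TAY
import Pool.Agent.Lib.MP_3c6092_nt.SR.PHO
import Pool.Agent.Lib.MP_3c6092_nt.SR.ERL
import Pool.Agent.Lib.MP_3c6092_nt.SR.REL
import Pool.Agent.Lib.MP_3c6092_nt.SR.ZES
import Pool.Agent.Lib.MP_3c6092_nt.SR.TRI
import Pool.Agent.Lib.MP_3c6092_nt.SR.CLU
import Pool.Agent.Lib.MP_3c6092_nt.SR.HYP
import Pool.Agent.Lib.MP_3c6092_nt.SR.INT
import Pool.Agent.Lib.MP_3c6092_nt.SR.PA3
import Pool.Agent.Lib.MP_3c6092_nt.SR.PA4
import Pool.Agent.Lib.MP_3c6092_nt.SR.PA8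
import Pool.Agent.Lib.MP_3c6092_nt.SR.COP
import Pool.Agent.Lib.MP_3c6092_nt.SR.ONE
import Pool.Agent.Lib.MP_3c6092_nt.SR.FIN

/-!
# MP_3c6092_nt: the square root bound, all modules together
-/

set_option autoImplicit false

namespace Pool.Agent.Lib.MP3c6092.SR

theorem allCLU : SpecCLU := specCLU (specZES specERL) specTRI

theorem allINT : SpecINT := specINT (specREL specTAY specPHO specERL)

theorem allFIN : SpecFIN :=
  specFIN (specPA3 (specHYP allCLU) allINT) (specPA4 allCLU allINT) (specPA8 allCLU allINT) specCOP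
    (specONE specCOP)

end Pool.Agent.Lib.MP3c6092.SR
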