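import Pool.Agent.Lib.MP_3c6092_nt.SR.Spec

/-!
# MP_3c6092_nt, module PA8 (helper87)
-/

set_option autoImplicit false

namespace Pool.Agent.Lib.MP3c6092.SR

open Finset Pool.Agent.Lib.MP3c6092

namespace PA8M

theorem mem_le {v : ℕ × ℕ} (hv : v ∈ S10) : v.1 ≤ 3 ∧ v.2 ≤ 3 ∧ v.1 + v.2 ≤ 3 := by
  have h : ∀ v ∈ S10, v.1 ≤ 3 ∧ v.2 ≤ 3 ∧ v.1 + v.2 ≤ 3 := by decide
  exact h v hv

theorem card10 : S10.card = 10 := by decide

theorem inj (m n : ℕ) (hm : 8 ≤ m) (hc : Nat.Coprime m n) :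
    Set.InjOn (w ((n : ℝ) / m)) S10 := by
  intro v hv u hu h
  obtain ⟨hv1, hv2, -⟩ := mem_le (Finset.mem_coe.1 hv)
  obtain ⟨hu1, hu2, -⟩ := mem_le (Finset.mem_coe.1 hu)
  have hm0 : (m : ℝ) ≠ 0 := by
    have : 0 < m := by omega
    exact_mod_cast this.ne'
  unfold w at h
  have h1 : (m : ℝ) * v.1 + n * v.2 = m * u.1 + n * u.2 := by
    field_simp at h
    linarith
  have h2 : (m : ℤ) * v.1 + n * v.2 = m * u.1 + n * u.2 := by exact_mod_cast h1
  have h3 : (m : ℤ) ∣ (n : ℤ) * ((v.2 : ℤ) - u.2) := ⟨(u.1 : ℤ) - v.1, by linear_combination h2⟩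
  have h4 : (m : ℤ) ∣ ((v.2 : ℤ) - u.2) :=
    IsCoprime.dvd_of_dvd_mul_left (Nat.isCoprime_iff_coprime.2 hc) h3
  have h5 : (v.2 : ℤ) - u.2 = 0 := by
    apply Int.eq_zero_of_abs_lt_dvd h4
    rw [abs_lt]
    constructor <;> omega
  have h6 : v.2 = u.2 := by omega
  have h7 : (m : ℤ) * v.1 = m * u.1 := by
    have h8 : (v.2 : ℤ) = u.2 := by exact_mod_cast h6
    rw [h8] at h2
    linarith
  have h9 : (v.1 : ℤ) = u.1 := by
    apply mul_left_cancel₀ _ h7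
    have : 0 < m := by omega
    exact_mod_cast this.ne'
  exact Prod.ext (by exact_mod_cast h9) h6

theorem sumw (h θ : ℝ) : ∑ v ∈ S10, (h - w θ v) = 10 * h - 10 - 10 * θ := by
  unfold S10 w
  rw [Finset.sum_insert (by decide), Finset.sum_insert (by decide), Finset.sum_insert (by decide),
    Finset.sum_insert (by decide), Finset.sum_insert (by decide), Finset.sum_insert (by decide),
    Finset.sum_insert (by decide), Finset.sum_insert (by decide), Finset.sum_insert (by decide),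
    Finset.sum_singleton]
  push_cast
  ring

theorem sumk (h ρ : ℝ) : ∑ k ∈ range 10, (h - (k : ℝ) * ρ) = 10 * h - 45 * ρ := by
  simp only [Finset.sum_range_succ, Finset.sum_range_zero]
  push_cast
  ring

end PA8M

open PA8M in
theorem specPA8 (hCLU : SpecCLU) (hINT : SpecINT) : SpecPA8 := by
  intro m n hm hc hmn hn κ hκ
  have hm0 : (0 : ℝ) < m := by
    have : 0 < m := by omega
    exact_mod_cast this
  obtain ⟨θ, hθ⟩ : ∃ θ : ℝ, θ = (n : ℝ) / m := ⟨_, rfl⟩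
  have hθ1 : 1 < θ := by
    rw [hθ, one_lt_div hm0]
    exact_mod_cast hmn
  have hm8 : (8 : ℝ) ≤ m := by exact_mod_cast hm
  obtain ⟨κ', hκ'0, hκ'1, hκ'2⟩ : ∃ κ' : ℝ, 0 < κ' ∧ κ' ≤ κ ∧ κ' ≤ 1 / 100 :=
    ⟨min κ (1 / 100), lt_min hκ (by norm_num), min_le_left _ _, min_le_right _ _⟩
  have hinj := inj m n hm hc
  obtain ⟨W, hW⟩ := hCLU S10 m n (by omega) hmn hn (by rw [card10]; norm_num) hinj (by
    rw [card10, ← hθ]
    push_cast
    have h1 : θ * 7 ≤ θ * ((m : ℝ) - 1) := by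
      apply mul_le_mul_of_nonneg_left _ (by linarith)
      linarith
    linarith)
  have hrel : ∃ C : ℝ, 0 ≤ C ∧ ∀ (X : ℝ) (c : ℕ × ℕ → ℤ) (F : Finset ℕ), 1 ≤ X → (∃ v ∈ S10, c v ≠ 0) →
      (∀ v ∈ S10, |(c v : ℝ)| ≤ X ^ (19 / 4 * θ)) →
      (∀ b ∈ F, X ≤ b ∧ (b : ℝ) ≤ 2 * X ∧ ∃ a, Lc a b m n ∧ Rel S10 c b a) →
      (F.card : ℝ) ≤ C * X ^ (0 : ℝ) := by
    refine ⟨(W : ℝ), Nat.cast_nonneg _, ?_⟩
    intro X c F hX hc0 _ hF
    rw [Real.rpow_zero, mul_one]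
    exact_mod_cast hW X c F hX hc0 hF
  obtain ⟨C, hC0, hC⟩ := hINT S10 m n 10 (θ / 2 + κ') (19 / 4 * θ) 0 (by omega) hmn hn
    (by linarith) le_rfl
    (by
      rw [← hθ, sumw, sumk]
      linarith)
    (by push_cast; linarith)
    (by
      rw [← hθ]
      have h1 : θ * 7 ≤ θ * ((m : ℝ) - 1) := by
        apply mul_le_mul_of_nonneg_left _ (by linarith)
        linarith
      linarith)
    (by
      intro v hv
      obtain ⟨-, -, h3⟩ := mem_le hv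
      rw [← hθ]
      unfold w
      have h4 : (v.1 : ℝ) + v.2 ≤ 3 := by exact_mod_cast h3
      have h5 : (0 : ℝ) ≤ v.1 := Nat.cast_nonneg _
      have h6 : (v.1 : ℝ) * 1 ≤ v.1 * θ := mul_le_mul_of_nonneg_left hθ1.le h5
      have h7 : θ * ((v.1 : ℝ) + v.2) ≤ θ * 3 := mul_le_mul_of_nonneg_left h4 (by linarith)
      nlinarith)
    (by
      intro k hk
      have h1 : (k : ℝ) ≤ 9 := by exact_mod_cast (by omega : k ≤ 9)
      have h2 : (k : ℝ) * (θ / 2 + κ') ≤ 9 * (θ / 2 + κ') :=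
        mul_le_mul_of_nonneg_right h1 (by linarith)
      linarith)
    hrel
  refine ⟨C, hC0, fun X F hX hF => (hC X F hX hF).trans ?_⟩
  apply mul_le_mul_of_nonneg_left _ hC0
  apply Real.rpow_le_rpow_of_exponent_le hX
  rw [hθ] at *
  linarith

end Pool.Agent.Lib.MP3c6092.SR
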