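import Pool.Agent.Lib.MP_3c6092_nt.LE.All
import Pool.Agent.Lib.MP_391708_nt.Div

/-!
# MP_3c6092_nt: the square root bound.  Specification (captain: helper68)

THEOREM (hand-in `SquareRoot`).  For every `ε > 0` there is `C` such that for every `N ≥ 1` at most `C N ^ (1/2 + ε)`
quadruples `(a, b, m, n)`, `1 ≤ b < a ≤ N`, `m, n ≥ 3`, `a ^ m ≠ b ^ n`, satisfy `|a ^ m - b ^ n| ≤ a - b`.

IDEA.  Large exponents: `LE.leech`.  Finitely many pairs `(m, n)` remain; they are coprime, `m < n`.  `n ≥ 2 m`: trivial.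
`m < n < 2 m`, `θ = n / m`: the `b` in `[X, 2 X]` are covered by intervals of length `X ^ (1 - ρ)`, `ρ = θ / 2 + κ`.  In each
interval the points satisfy one relation `∑ c v b ^ v.1 a ^ v.2 = 0`, `v ∈ S` (REL: pigeonhole for the Taylor coefficients),
`S = {i + j ≤ 3}` for `m ≥ 8`, `{i + j ≤ 2}` for `4 ≤ m ≤ 7`, `{1, b, a, b ^ 2, b a}` for `m = 3`.  A relation has a bounded number
of points (CLU: zero estimate and three-point determinants), or, for `m = 3`, `X ^ ε` (HYP: divisors).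

All modules are independent: file `SR/XXX.lean`, `import Pool.Agent.Lib.MP_3c6092_nt.SR.Spec` only,
namespace `Pool.Agent.Lib.MP3c6092.SR`, `theorem specXXX (hYYY : SpecYYY) .. : SpecXXX` (hypotheses in the
order of USES), own lemmas in a namespace `XXXM`.
-/

set_option autoImplicit false

namespace Pool.Agent.Lib.MP3c6092.SR

open Finset Pool.Agent.Lib.MP3c6092

/-- a solution of Leech's inequality -/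
def Lc (a b m n : ℕ) : Prop :=
  1 ≤ b ∧ b < a ∧ a ^ m ≠ b ^ n ∧ |(a : ℝ) ^ m - (b : ℝ) ^ n| ≤ (a : ℝ) - b

/-- the exponent of the monomial `b ^ v.1 a ^ v.2` for `a = b ^ θ` -/
noncomputable def w (θ : ℝ) (v : ℕ × ℕ) : ℝ := v.1 + θ * v.2

/-- the point `(b, a)` satisfies the relation -/
def Rel (S : Finset (ℕ × ℕ)) (c : ℕ × ℕ → ℤ) (b a : ℕ) : Prop :=
  ∑ v ∈ S, c v * ((b : ℤ) ^ v.1 * (a : ℤ) ^ v.2) = 0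

/-- `1, b, a, b ^ 2, b a` -/
def S5 : Finset (ℕ × ℕ) := {(0, 0), (1, 0), (0, 1), (2, 0), (1, 1)}
/-- `i + j ≤ 2` -/
def S6 : Finset (ℕ × ℕ) := {(0, 0), (1, 0), (0, 1), (2, 0), (1, 1), (0, 2)}
/-- `i + j ≤ 3` -/
def S10 : Finset (ℕ × ℕ) :=
  {(0, 0), (1, 0), (0, 1), (2, 0), (1, 1), (0, 2), (3, 0), (2, 1), (1, 2), (0, 3)}

/-- MODULE TAY (40 lines).  PROOF.  `z ^ e` is analytic at `1` (`Real.analyticAt_rpow_const` or similar);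
`HasFPowerSeriesAt.isBigO_sub_partialSum_pow` (one variable: `γ k = p.coeff k`). -/
def SpecTAY : Prop := ∀ (e : ℝ) (K : ℕ), ∃ (γ : ℕ → ℝ) (C r : ℝ), 0 < r ∧ 0 ≤ C ∧
  ∀ t : ℝ, |t| ≤ r → |(1 + t) ^ e - ∑ k ∈ range K, γ k * t ^ k| ≤ C * |t| ^ K

/-- MODULE PHO (60 lines).  PROOF.  Pigeonhole: for `c` in `∏ [0, H v]` the cells `⌊(∑ c v α v k + B k) / η⌋₊`, `k < K`, are in
`∏ [0, 2 B k / η]`, at most `∏ (2 B k / η + 1)` of them, fewer than the `c` (`Fintype.piFinset`,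
`exists_ne_map_eq_of_card_lt_of_maps_to`); the difference of two `c` in the same cell. -/
def SpecPHO : Prop := ∀ (S : Finset (ℕ × ℕ)) (K : ℕ) (α : ℕ × ℕ → ℕ → ℝ) (H : ℕ × ℕ → ℕ) (B : ℕ → ℝ) (η : ℝ), 0 < η →
  (∀ k < K, ∑ v ∈ S, (H v : ℝ) * |α v k| ≤ B k) →
  ∏ k ∈ range K, (2 * B k / η + 1) < ∏ v ∈ S, ((H v : ℝ) + 1) →
  ∃ c : ℕ × ℕ → ℤ, (∃ v ∈ S, c v ≠ 0) ∧ (∀ v ∈ S, |c v| ≤ H v) ∧ ∀ k < K, |∑ v ∈ S, (c v : ℝ) * α v k| ≤ η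

/-- MODULE ERL (80 lines).  The error of one monomial.
PROOF.  `u = b ^ θ / a`, `u ^ m = b ^ n / a ^ m`, `|u ^ m - 1| ≤ (a - b) / a ^ m < a ^ (1 - m) ≤ 1 / 2` (`a ≥ 2`, `m ≥ 3`... `m ≥ 2`), so
`|u - 1| ≤ |u ^ m - 1| < a ^ (1 - m)`, `1/2 ≤ u ≤ 3/2`, `a ≥ b ^ θ / 2 ≥ X ^ θ / 2`, so `|u - 1| ≤ 2 ^ m X ^ (- θ (m - 1))`;
`|1 - u ^ j| ≤ |1 - u| j 2 ^ j`, `a ^ j ≤ 2 ^ j b ^ (θ j)`, `b ≤ 2 X`.  (Compare `LE/ERR.lean`.) -/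
def SpecERL : Prop := ∀ (m n i j : ℕ), 3 ≤ m → m < n → n < 2 * m → ∃ C : ℝ, 0 ≤ C ∧ ∀ (X : ℝ) (a b : ℕ), 1 ≤ X →
  X ≤ b → (b : ℝ) ≤ 2 * X → Lc a b m n →
  |(b : ℝ) ^ i * (a : ℝ) ^ j - (b : ℝ) ^ w ((n : ℝ) / m) (i, j)| ≤
    C * X ^ (w ((n : ℝ) / m) (i, j) - (n : ℝ) / m * (m - 1))

/-- MODULE REL (170 lines).  USES `SpecTAY`, `SpecPHO`, `SpecERL`.  One relation for all points of an interval.
PROOF.  `γ v k, Cv, rv` from `SpecTAY (w θ v) K`; `u = X ^ (- ρ)` (`≤ rv` for large `X`), `η = 1 / (4 (K + 1))`, `H v = ⌊X ^ (h - w θ v)⌋₊`,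
`α v k = x₀ ^ w θ v * γ v k * u ^ k`.  As `x₀ ≤ 2 X`: `∑ H v |α v k| ≤ C₁ X ^ (h - k ρ) =: B k`, `2 B k / η + 1 ≤ C₂ X ^ (h - k ρ)`
(`k ρ ≤ h`); `∏ k < K` of them is `≤ C₂ ^ K X ^ (∑ (h - k ρ)) < X ^ (∑ (h - w θ v)) ≤ ∏ (H v + 1)` for large `X` (`⌊y⌋₊ + 1 > y`).
`SpecPHO` gives `c`.  For a point write `b = x₀ (1 + t)`, `|t| ≤ X ^ (1 - ρ) / x₀ ≤ u`:
`∑ c v b ^ w θ v = ∑ k < K, (∑ c v α v k) (t / u) ^ k + ∑ c v x₀ ^ w θ v R v`, the first sum is `≤ K η ≤ 1/4`, the second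
`≤ C₃ X ^ (h - K ρ) < 1/4`; `SpecERL`: `|∑ c v (b ^ v.1 a ^ v.2 - b ^ w θ v)| ≤ C₄ X ^ (h - θ (m - 1)) < 1/4`.  So the integer
`∑ c v b ^ v.1 a ^ v.2` is `0`. -/
def SpecREL : Prop := ∀ (S : Finset (ℕ × ℕ)) (m n K : ℕ) (ρ h : ℝ), 3 ≤ m → m < n → n < 2 * m → 0 < ρ →
  (∑ k ∈ range K, (h - k * ρ) < ∑ v ∈ S, (h - w ((n : ℝ) / m) v)) → h < K * ρ → h < (n : ℝ) / m * (m - 1) →
  (∀ v ∈ S, w ((n : ℝ) / m) v ≤ h) → (∀ k < K, k * ρ ≤ h) →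
  ∃ X₀ : ℝ, 1 ≤ X₀ ∧ ∀ X x₀ : ℝ, X₀ ≤ X → X ≤ x₀ → x₀ ≤ 2 * X →
    ∃ c : ℕ × ℕ → ℤ, (∃ v ∈ S, c v ≠ 0) ∧ (∀ v ∈ S, |(c v : ℝ)| ≤ X ^ h) ∧
      ∀ a b : ℕ, X ≤ b → (b : ℝ) ≤ 2 * X → |(b : ℝ) - x₀| ≤ X ^ (1 - ρ) → Lc a b m n → Rel S c b a

/-- MODULE ZES (120 lines).  USES `SpecERL`.  Zero estimate for points with distances `≥ Δ`.
PROOF.  `D = |S|`.  `V = max |c v| X ^ w v` over `S`, attained at `q0`, `V > 0`.  As `Rel` holds, `|∑ c v b ^ w v| =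
|∑ c v (b ^ w v - b ^ v.1 a ^ v.2)| ≤ D C₁ V X ^ (- θ (m - 1)) =: η` (`SpecERL`).  `LE.specLBD` (in `LE/LBD.lean`, imported)
for `X / Δ`, `x k = b k / Δ`, exponents `e v = w v`, coefficients `c v * Δ ^ w v` (then `c v Δ ^ w v (b / Δ) ^ w v = c v b ^ w v`),
`A` a bound (depends on `S`, `θ`).  Its conclusion, with `y = y' / Δ`, `y' ≥ X`: `|c q0| y' ^ w q0 P ≤ η (2 ^ (A + 2) X / Δ) ^ (D - 1)`,
`P = ∏ |w q0 - w p| > 0` (bounded below by a constant, minimum over `q0 ∈ S`).  Divide by `V`. -/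
def SpecZES : Prop := ∀ (S : Finset (ℕ × ℕ)) (m n : ℕ), 3 ≤ m → m < n → n < 2 * m → 2 ≤ S.card →
  Set.InjOn (w ((n : ℝ) / m)) S → ∃ C : ℝ, 1 ≤ C ∧ ∀ (X Δ : ℝ) (c : ℕ × ℕ → ℤ) (b a : ℕ → ℕ), 1 ≤ X → 1 ≤ Δ → Δ ≤ X →
    (∃ v ∈ S, c v ≠ 0) →
    (∀ k < 2 ^ (S.card - 1), X ≤ b k ∧ (b k : ℝ) ≤ 2 * X ∧ Lc (a k) (b k) m n ∧ Rel S c (b k) (a k)) →
    (∀ k, k + 1 < 2 ^ (S.card - 1) → (b k : ℝ) + Δ ≤ b (k + 1)) →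
    Δ ≤ C * X ^ (1 - (n : ℝ) / m * (m - 1) / (S.card - 1))

/-- MODULE TRI (50 lines).  Short intervals have few points.
PROOF.  The last part of `fiber_bound` in `Count.lean` (`close_X` with `|a ^ m - b ^ n| ≤ a - b < a ≤ a ^ (m - 2)`, and `no_triple`). -/
def SpecTRI : Prop := ∀ (m n : ℕ) (X : ℝ) (G : Finset ℕ), 3 ≤ m → m < n → n < 2 * m → 64 ≤ X →
  (∀ b ∈ G, X ≤ b ∧ (b : ℝ) ≤ 2 * X ∧ ∃ a, Lc a b m n) →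
  (∀ b ∈ G, ∀ b' ∈ G, (b : ℝ) - b' ≤ X ^ ((2 - (n : ℝ) / m) / 3)) → G.card ≤ 16 * m + 4

/-- MODULE CLU (120 lines).  USES `SpecZES`, `SpecTRI`.  A relation has a bounded number of points.
PROOF.  `σ = 1 - θ (m - 1) / (D - 1) ≤ (2 - θ) / 3`, `C₁` from `SpecZES`, `Δ = 2 C₁ X ^ σ⁺`, `σ⁺ = max σ 0 ≤ (2 - θ) / 3 < 1`
(`Δ ≤ X` for large `X`; for the other `X` take the constant `≥ X + 1`).  If an interval `[x, x + Δ)` contained more than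
`W = (2 C₁ + 1) (16 m + 4)` points, one of its `≤ 2 C₁ + 1` parts of length `X ^ σ⁺` had more than `16 m + 4`, against `SpecTRI`.
So if `F` has more than `2 ^ D W` elements, the greedy choice (the smallest, then the smallest `≥ ` the last `+ Δ`, ...) gives
`2 ^ (D - 1)` points of `F` with distances `≥ Δ`, and `SpecZES` gives `Δ ≤ C₁ X ^ σ < Δ`.  (For the choice: e.g. the points of `F`
in increasing order with the indices `0, W + 1, 2 (W + 1), ...`: `F.orderEmbOfFin`; between two of them are `W + 1` points,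
so their distance is `≥ Δ`.) -/
def SpecCLU : Prop := ∀ (S : Finset (ℕ × ℕ)) (m n : ℕ), 3 ≤ m → m < n → n < 2 * m → 2 ≤ S.card →
  Set.InjOn (w ((n : ℝ) / m)) S → 1 - (n : ℝ) / m * (m - 1) / (S.card - 1) ≤ (2 - (n : ℝ) / m) / 3 →
  ∃ W : ℕ, ∀ (X : ℝ) (c : ℕ × ℕ → ℤ) (F : Finset ℕ), 1 ≤ X → (∃ v ∈ S, c v ≠ 0) →
    (∀ b ∈ F, X ≤ b ∧ (b : ℝ) ≤ 2 * X ∧ ∃ a, Lc a b m n ∧ Rel S c b a) → F.card ≤ W

/-- MODULE HYP (160 lines).  USES `SpecCLU`.  The case `m = 3`.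
PROOF.  `c0, c1, c2, c3, c4` the coefficients of `1, b, a, b ^ 2, b a`.  If `c4 = 0`: `SpecCLU` for `{1, b, a, b ^ 2}`
(`1 - 2 θ / 3 ≤ (2 - θ) / 3`).  Let `c4 ≠ 0`, `u = c4 b + c2`, `K = c0 c4 ^ 2 - c1 c2 c4 + c3 c2 ^ 2`.  The relation times `c4 ^ 2` is
`u (c4 ^ 2 a + c1 c4 + c3 u - 2 c2 c3) + K = 0`, so `u ∣ K`.  If `K ≠ 0`: `|K| ≤ 3 X ^ (3 h)`, so there are at most
`2 C₁ (3 X ^ (3 h)) ^ κ` values of `u` (`card_divisors_le_rpow` in `MP_391708_nt/Div.lean`, imported; `3 h κ ≤ ε`), and `u` determines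
`b`.  If `K = 0`: `u = 0` (one `b`) or `c4 ^ 2 a + c3 c4 b + (c1 c4 - c2 c3) = 0`, a relation for `{1, b, a}` with
the coefficient `c4 ^ 2 ≠ 0` of `a`: `SpecCLU` (`1 - θ ≤ (2 - θ) / 3`). -/
def SpecHYP : Prop := ∀ (n : ℕ) (h ε : ℝ), 3 < n → n < 6 → 0 ≤ h → 0 < ε →
  ∃ C : ℝ, 0 ≤ C ∧ ∀ (X : ℝ) (c : ℕ × ℕ → ℤ) (F : Finset ℕ), 1 ≤ X → (∃ v ∈ S5, c v ≠ 0) →
    (∀ v ∈ S5, |(c v : ℝ)| ≤ X ^ h) →
    (∀ b ∈ F, X ≤ b ∧ (b : ℝ) ≤ 2 * X ∧ ∃ a, Lc a b 3 n ∧ Rel S5 c b a) → (F.card : ℝ) ≤ C * X ^ ε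

/-- MODULE INT (80 lines).  USES `SpecREL`.  From relations to all points of `[X, 2 X]`.
PROOF.  `X₀` from `SpecREL`.  For `X < X₀`: `F.card ≤ X + 1 ≤ X₀ + 1`.  Otherwise the intervals with the centres
`x₀ = X + k X ^ (1 - ρ)`, `k ≤ X ^ ρ`, cover `[X, 2 X]`; the part of `F` in each has at most `C X ^ ε` elements. -/
def SpecINT : Prop := ∀ (S : Finset (ℕ × ℕ)) (m n K : ℕ) (ρ h ε : ℝ), 3 ≤ m → m < n → n < 2 * m → 0 < ρ → 0 ≤ ε →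
  (∑ k ∈ range K, (h - k * ρ) < ∑ v ∈ S, (h - w ((n : ℝ) / m) v)) → h < K * ρ → h < (n : ℝ) / m * (m - 1) →
  (∀ v ∈ S, w ((n : ℝ) / m) v ≤ h) → (∀ k < K, k * ρ ≤ h) →
  (∃ C : ℝ, 0 ≤ C ∧ ∀ (X : ℝ) (c : ℕ × ℕ → ℤ) (F : Finset ℕ), 1 ≤ X → (∃ v ∈ S, c v ≠ 0) →
    (∀ v ∈ S, |(c v : ℝ)| ≤ X ^ h) →
    (∀ b ∈ F, X ≤ b ∧ (b : ℝ) ≤ 2 * X ∧ ∃ a, Lc a b m n ∧ Rel S c b a) → (F.card : ℝ) ≤ C * X ^ ε) →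
  ∃ C : ℝ, 0 ≤ C ∧ ∀ (X : ℝ) (F : Finset ℕ), 1 ≤ X →
    (∀ b ∈ F, X ≤ b ∧ (b : ℝ) ≤ 2 * X ∧ ∃ a, Lc a b m n) → (F.card : ℝ) ≤ C * X ^ (ρ + ε)

/-- the bound for one pair of exponents -/
def Good (m n : ℕ) : Prop := ∀ κ : ℝ, 0 < κ → ∃ C : ℝ, 0 ≤ C ∧ ∀ (X : ℝ) (F : Finset ℕ), 1 ≤ X →
    (∀ b ∈ F, X ≤ b ∧ (b : ℝ) ≤ 2 * X ∧ ∃ a, Lc a b m n) → (F.card : ℝ) ≤ C * X ^ ((n : ℝ) / m / 2 + κ)

/-- MODULE PA3 (90 lines).  USES `SpecHYP`, `SpecINT`.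
PROOF.  `κ' = min (κ / 2) (1 / 100)`, `ρ = θ / 2 + κ'`, `ε = κ / 2`, `S5`, `K = 4`.  `n = 4`: `h = 8 / 3 - 3 κ'` (the sum condition is
`4 h - 6 ρ < 5 h - 20 / 3`).  `n = 5`: `h = 3` (`4 h - 6 ρ < 5 h - 22 / 3`). -/
def SpecPA3 : Prop := ∀ n : ℕ, 3 < n → n < 6 → Good 3 n

/-- MODULE PA4 (110 lines).  USES `SpecCLU`, `SpecINT`.
PROOF.  `κ' = min κ (1 / 100)`, `ρ = θ / 2 + κ'`, `ε = 0`, `S6`, `K = 6`, `h = 11 / 4 θ` (the sum condition is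
`6 h - 15 ρ < 6 h - 4 - 4 θ`, true for `θ ≥ 8 / 7`, and `θ ≥ (m + 1) / m`).  Injectivity: `i + θ j = i' + θ j'`, so `m ∣ n (j - j')`,
`|j - j'| ≤ 2 < m`.  `SpecCLU`: `1 / 3 ≤ θ ((m - 1) / 5 - 1 / 3)` for `m = 4`, `θ ≥ 5 / 4`, and for `m ≥ 5`. -/
def SpecPA4 : Prop := ∀ m n : ℕ, 4 ≤ m → m ≤ 7 → Nat.Coprime m n → m < n → n < 2 * m → Good m n

/-- MODULE PA8 (110 lines).  USES `SpecCLU`, `SpecINT`.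
PROOF.  `κ' = min κ (1 / 100)`, `ρ = θ / 2 + κ'`, `ε = 0`, `S10`, `K = 10`, `h = 19 / 4 θ` (the sum condition is
`10 h - 45 ρ < 10 h - 10 - 10 θ`).  Injectivity as in PA4 (`|j - j'| ≤ 3 < m`).  `SpecCLU`: `1 / 3 ≤ θ ((m - 1) / 9 - 1 / 3)`. -/
def SpecPA8 : Prop := ∀ m n : ℕ, 8 ≤ m → Nat.Coprime m n → m < n → n < 2 * m → Good m n

/-- MODULE COP (70 lines).  PROOF.  `g = gcd m n ≥ 2` would give (`pow_diff`, as in `LE/RDCg.lean`)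
`a ^ m' ≤ |a ^ m' - b ^ n'| a ^ (m' (g - 1)) ≤ a - b < a`.  `m < n`: otherwise `a ^ m - b ^ n ≥ a ^ m - b ^ m ≥ (a - b) a ^ (m - 1)`.
`2 ≤ b`: `a ^ m - 1 > a - 1`.  Uniqueness: `unique_a` (`Red.lean`), `a - b < a ≤ a ^ (m - 1)`. -/
def SpecCOP : Prop := (∀ a b m n : ℕ, 3 ≤ m → 3 ≤ n → Lc a b m n → Nat.Coprime m n ∧ m < n ∧ 2 ≤ b ∧
    (b : ℝ) ^ n ≤ 2 * (a : ℝ) ^ m) ∧
  (∀ a a' b m n : ℕ, 3 ≤ m → Lc a b m n → Lc a' b m n → a = a')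

/-- MODULE ONE (120 lines).  One pair of exponents.
PROOF.  The set of the `b` with `∃ a ≤ N, Lc a b m n` is mapped injectively (`SpecCOP`).  `b ^ n ≤ 2 a ^ m ≤ 2 N ^ m`.
`n ≥ 2 m`: `b ≤ 2 N ^ (1 / 2)`.  `n < 2 m`: split by `j = Nat.log 2 b`, `X = 2 ^ j ≤ b ≤ (2 N ^ m) ^ (1 / n) ≤ 2 N ^ (m / n)`; `Good` with
`κ = ε / 2` gives `≤ C X ^ (θ / 2 + κ) ≤ C' N ^ (1 / 2 + κ)` (`κ m / n ≤ κ`), times the number `≤ Nat.log 2 N + 1` of the `j`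
(`LE.TOTM.log_bound` in `LE/TOT.lean`, imported, gives `≤ (2 s + 1) N ^ (1 / s)`).  USES `SpecCOP`. -/
def SpecONE : Prop := ∀ m n : ℕ, 3 ≤ m → 3 ≤ n → m < n → (n < 2 * m → Good m n) → ∀ ε : ℝ, 0 < ε →
  ∃ C : ℝ, 0 ≤ C ∧ ∀ N : ℕ, 1 ≤ N → ∃ S : Finset (ℕ × ℕ), (S.card : ℝ) ≤ C * (N : ℝ) ^ (1 / 2 + ε) ∧
    ∀ a b : ℕ, a ≤ N → Lc a b m n → (a, b) ∈ S

/-- MODULE FIN (100 lines).  USES `SpecPA3`, `SpecPA4`, `SpecPA8`, `SpecCOP`, `SpecONE`.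
PROOF.  `LE.leech LE.allQUAD` with `δ = 1`, `ε = 1 / 2` gives `M, C`: the solutions with `M ≤ m` or `M ≤ n` are in a set of size `C N ^ (1 / 2)`.
The others have coprime `3 ≤ m < n < M`: union over these finitely many pairs of `S (m, n) × {(m, n)}` (`SpecONE`; `Good m n` from
`SpecPA3` (`m = 3`), `SpecPA4`, `SpecPA8`). -/
def SpecFIN : Prop := ∀ ε : ℝ, 0 < ε → ∃ C : ℝ, ∀ N : ℕ, 1 ≤ N →
  ∃ S : Finset (ℕ × ℕ × ℕ × ℕ), (S.card : ℝ) ≤ C * (N : ℝ) ^ (1 / 2 + ε) ∧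
    ∀ a b m n : ℕ, 1 ≤ b → b < a → a ≤ N → 3 ≤ m → 3 ≤ n → a ^ m ≠ b ^ n →
      |(a : ℤ) ^ m - (b : ℤ) ^ n| ≤ (a : ℤ) - b → (a, b, m, n) ∈ S

end Pool.Agent.Lib.MP3c6092.SR
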