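import Pool.Agent.Lib.MP_3c6092_nt.SR.Spec

/-!
# Module TAY: the Taylor polynomials of `(1 + t) ^ e`
-/

set_option autoImplicit false

namespace Pool.Agent.Lib.MP3c6092.SR

open Finset

theorem specTAY : SpecTAY := by
  intro e K
  have h1 := (Real.one_add_rpow_hasFPowerSeriesAt_zero (a := e)).isBigO_sub_partialSum_pow K
  obtain ⟨C, hC, hb⟩ := h1.exists_nonneg
  rw [Asymptotics.isBigOWith_iff, Metric.eventually_nhds_iff] at hb
  obtain ⟨ε, hε, hb⟩ := hb
  refine ⟨fun k => (binomialSeries ℝ e).coeff k, C, ε / 2, by positivity, hC, ?_⟩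
  intro t ht
  have h2 := hb (y := t) (by rw [Real.dist_eq, sub_zero]; linarith)
  rw [Real.norm_eq_abs, Real.norm_eq_abs, Real.norm_eq_abs, abs_pow, abs_abs] at h2
  have e1 : (binomialSeries ℝ e).partialSum K t =
      ∑ k ∈ range K, (binomialSeries ℝ e).coeff k * t ^ k := by
    unfold FormalMultilinearSeries.partialSum
    refine sum_congr rfl (fun k _ => ?_)
    rw [FormalMultilinearSeries.apply_eq_prod_smul_coeff, Finset.prod_const, Finset.card_univ,
      Fintype.card_fin, smul_eq_mul, mul_comm]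
  rw [e1, zero_add] at h2
  exact h2

end Pool.Agent.Lib.MP3c6092.SR
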